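import Mathlib

set_option autoImplicit false

/-! Log coordinates for `x (n+3) = 1 / (C n * x (n+1) + x n)`. -/

namespace Pool.Agent.H33.Rec

open Real

/-- the one-step map in log coordinates -/
noncomputable def L (c a b : ℝ) : ℝ := - Real.log (c * exp b + exp a)

lemma L_arg_pos {c : ℝ} (hc : 0 ≤ c) (a b : ℝ) : 0 < c * exp b + exp a := by positivity

lemma L_le_add {c : ℝ} (hc : 0 ≤ c) {a a' b b' D : ℝ} (ha : a' - D ≤ a) (hb : b' - D ≤ b) :
    L c a b ≤ L c a' b' + D := by
  unfold L
  have h1 : c * exp b' + exp a' ≤ exp D * (c * exp b + exp a) := by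
    have e1 : exp b' ≤ exp D * exp b := by rw [← exp_add]; exact exp_le_exp.mpr (by linarith)
    have e2 : exp a' ≤ exp D * exp a := by rw [← exp_add]; exact exp_le_exp.mpr (by linarith)
    nlinarith [mul_le_mul_of_nonneg_left e1 hc]
  have h2 := Real.log_le_log (L_arg_pos hc a' b') h1
  rw [Real.log_mul (exp_pos D).ne' (L_arg_pos hc a b).ne', Real.log_exp] at h2
  linarith

lemma L_nonexp {c : ℝ} (hc : 0 ≤ c) {a a' b b' D : ℝ} (ha : |a - a'| ≤ D) (hb : |b - b'| ≤ D) :
    |L c a b - L c a' b'| ≤ D := by
  rw [abs_le] at ha hb ⊢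
  constructor
  · have := L_le_add hc (a := a') (a' := a) (b := b') (b' := b) (D := D)
      (by linarith) (by linarith)
    linarith
  · have := L_le_add hc (a := a) (a' := a') (b := b) (b' := b') (D := D)
      (by linarith) (by linarith)
    linarith

lemma L_zero (a b : ℝ) : L 0 a b = -a := by simp [L]

lemma exp_L {c : ℝ} (hc : 0 ≤ c) (a b : ℝ) : exp (L c a b) = 1 / (c * exp b + exp a) := by
  unfold L
  rw [exp_neg, Real.exp_log (L_arg_pos hc a b), one_div]

lemma exp_neg_L {c : ℝ} (hc : 0 ≤ c) (a b : ℝ) : exp (-(L c a b)) = c * exp b + exp a := by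
  unfold L
  rw [neg_neg, Real.exp_log (L_arg_pos hc a b)]

/-- `L` is within a constant of `-max`. -/
lemma L_near_max {c : ℝ} (hc : 0 < c) : ∃ K : ℝ, ∀ a b : ℝ, |L c a b + max a b| ≤ K := by
  refine ⟨max (-Real.log (min c 1)) (Real.log (1 + c)), fun a b => ?_⟩
  have hmin : 0 < min c 1 := lt_min hc one_pos
  have hlow : min c 1 * exp (max a b) ≤ c * exp b + exp a := by
    rcases le_total a b with h | h
    · rw [max_eq_right h]
      have : min c 1 * exp b ≤ c * exp b :=
        mul_le_mul_of_nonneg_right (min_le_left _ _) (exp_pos b).le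
      linarith [exp_pos a]
    · rw [max_eq_left h]
      have : min c 1 * exp a ≤ 1 * exp a :=
        mul_le_mul_of_nonneg_right (min_le_right _ _) (exp_pos a).le
      have h2 : 0 < c * exp b := by positivity
      linarith
  have hup : c * exp b + exp a ≤ (1 + c) * exp (max a b) := by
    have e1 : exp b ≤ exp (max a b) := exp_le_exp.mpr (le_max_right _ _)
    have e2 : exp a ≤ exp (max a b) := exp_le_exp.mpr (le_max_left _ _)
    nlinarith
  have h1 := Real.log_le_log (by positivity) hlow
  have h2 := Real.log_le_log (by positivity) hup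
  rw [Real.log_mul hmin.ne' (exp_pos _).ne', Real.log_exp] at h1
  rw [Real.log_mul (by positivity) (exp_pos _).ne', Real.log_exp] at h2
  unfold L
  rw [abs_le]
  constructor
  · have := le_max_right (-Real.log (min c 1)) (Real.log (1 + c))
    linarith
  · have := le_max_left (-Real.log (min c 1)) (Real.log (1 + c))
    linarith

lemma L_continuous {c : ℝ} (hc : 0 ≤ c) : Continuous fun p : ℝ × ℝ => L c p.1 p.2 := by
  unfold L
  refine (Continuous.log (by fun_prop) fun p => ?_).neg
  exact (L_arg_pos hc _ _).ne'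

end Pool.Agent.H33.Rec
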