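import Mathlib

set_option autoImplicit false

/-! Definitions for the recursion `x_{n+1} = 1 / (C_n x_{n-1} + x_{n-2})` with a `k`-periodic
coefficient, written as a function `C` on `ZMod k`. -/

namespace Pool.Agent.H33.Rec

/-- `x` is a positive solution; `x n` stands for the term `x_{n-2}` of the problem, so that
`x 0, x 1, x 2` are the initial values `x_{-2}, x_{-1}, x_0`. -/
def IsPosSol {k : ℕ} (C : ZMod k → ℝ) (x : ℕ → ℝ) : Prop :=
  0 < x 0 ∧ 0 < x 1 ∧ 0 < x 2 ∧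
    ∀ n : ℕ, x (n + 3) = 1 / (C (n : ZMod k) * x (n + 1) + x n)

/-- every positive solution is bounded -/
def AllBounded {k : ℕ} (C : ZMod k → ℝ) : Prop :=
  ∀ x : ℕ → ℝ, IsPosSol C x → ∃ M : ℝ, ∀ n, x n ≤ M

/-- A `k`-periodic sequence of signs `ε` (values `1` and `-1`) following the sign rule
`ε (i + 3) = - ε i` if `C i = 0` and `ε (i + 3) = - max (ε i) (ε (i + 1))` if `C i ≠ 0`. -/
def IsSignPattern {k : ℕ} (C : ZMod k → ℝ) (ε : ZMod k → ℤ) : Prop :=
  ∀ i, (ε i = 1 ∨ ε i = -1) ∧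
    ε (i + 3) = if C i = 0 then -ε i else -max (ε i) (ε (i + 1))

/-- A `k`-periodic sequence of positive weights `v` satisfying the strict inequalities attached
to the sign sequence `ε`. -/
def IsWeight {k : ℕ} (C : ZMod k → ℝ) (ε : ZMod k → ℤ) (v : ZMod k → ℝ) : Prop :=
  ∀ i, 0 < v i ∧
    (ε (i + 3) = 1 → 1 / (C i / v (i + 1) + 1 / v i) < v (i + 3)) ∧
    (ε (i + 3) = -1 →
      (if ε (i + 1) = 1 then C i * v (i + 1) else 0) + (if ε i = 1 then v i else 0) < v (i + 3))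

end Pool.Agent.H33.Rec
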