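import Mathlib

set_option autoImplicit false

/-! Completion of `{-1,0,1}`-valued periodic solutions of the max-recursion to sign-valued ones. -/

namespace Pool.Agent.H33.Rec

open SignType

abbrev St := SignType × SignType × SignType

def nxt (b : Bool) (s : St) : St :=
  (s.2.1, s.2.2, if b then -(max s.1 s.2.1) else -s.1)

def listA : List St :=
  [(pos,pos,pos), (pos,pos,neg), (pos,neg,neg), (neg,pos,pos), (neg,neg,pos), (neg,neg,neg)]
def listB : List St :=
  [(pos,pos,zero), (pos,zero,neg), (pos,zero,zero), (neg,neg,zero), (neg,zero,pos), (neg,zero,zero),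
   (zero,pos,pos), (zero,pos,zero), (zero,neg,neg), (zero,neg,zero), (zero,zero,pos),
   (zero,zero,neg)]
def listC : List St :=
  [(pos,neg,zero), (pos,zero,pos), (neg,pos,zero), (neg,zero,neg), (zero,pos,neg), (zero,neg,pos)]

def rk (s : St) : ℕ :=
  if s = (zero,zero,zero) then 0 else if s ∈ listA then 1 else if s ∈ listB then 2
  else if s ∈ listC then 3 else 4

def fill (s : St) : SignType :=
  if s.1 ≠ zero then s.1 else if s.2.1 ≠ zero then s.2.1 else s.2.2

lemma rk_nxt : ∀ (b : Bool) (s : St), rk (nxt b s) ≤ rk s := by decide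

lemma rk_zero : ∀ s : St, rk s = 0 → s = (zero, zero, zero) := by decide

lemma fill_ne : ∀ s : St, rk s ≠ 0 → fill s ≠ zero := by decide

lemma fill_check : ∀ (s : St) (b0 b1 b2 : Bool), rk s ≠ 0 → rk (nxt b0 s) = rk s →
    rk (nxt b1 (nxt b0 s)) = rk s → rk (nxt b2 (nxt b1 (nxt b0 s))) = rk s →
    fill (nxt b2 (nxt b1 (nxt b0 s))) =
      if b0 then -(max (fill s) (fill (nxt b0 s))) else -(fill s) := by decide

variable {k : ℕ} [NeZero k]

lemma completion (b : ZMod k → Bool) (σ : ZMod k → SignType)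
    (hrec : ∀ i, σ (i + 3) = if b i then -(max (σ i) (σ (i + 1))) else -σ i)
    (hne : ∃ i, σ i ≠ zero) :
    ∃ ε : ZMod k → SignType, (∀ i, ε i ≠ zero) ∧ (∀ i, σ i ≠ zero → ε i = σ i) ∧
      ∀ i, ε (i + 3) = if b i then -(max (ε i) (ε (i + 1))) else -ε i := by
  set s : ZMod k → St := fun i => (σ i, σ (i + 1), σ (i + 2)) with hs
  have hstep : ∀ i, s (i + 1) = nxt (b i) (s i) := by
    intro i
    have h1 : i + 1 + 1 = i + 2 := by ring
    have h2 : i + 1 + 2 = i + 3 := by ring
    simp only [hs, nxt, h1, h2, hrec i]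
  have hmono : ∀ i, rk (s (i + 1)) ≤ rk (s i) := fun i => by rw [hstep]; exact rk_nxt _ _
  have hmono' : ∀ (j : ℕ) (i : ZMod k), rk (s (i + j)) ≤ rk (s i) := by
    intro j
    induction j with
    | zero => intro i; simp
    | succ j ih =>
      intro i
      have : i + ((j + 1 : ℕ) : ZMod k) = (i + j) + 1 := by push_cast; ring
      rw [this]
      exact (hmono _).trans (ih i)
  have hconst : ∀ i, rk (s (i + 1)) = rk (s i) := by
    intro i
    refine le_antisymm (hmono i) ?_
    have h1 := hmono' (k - 1) (i + 1)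
    have hk : 1 ≤ k := Nat.one_le_iff_ne_zero.mpr (NeZero.ne k)
    have h2 : i + 1 + ((k - 1 : ℕ) : ZMod k) = i := by
      have : ((k - 1 : ℕ) : ZMod k) = ((k : ℕ) : ZMod k) - 1 := by
        rw [Nat.cast_sub hk]; simp
      rw [this, ZMod.natCast_self]; ring
    rwa [h2] at h1
  have hconst' : ∀ (j : ℕ) (i : ZMod k), rk (s (i + j)) = rk (s i) := by
    intro j
    induction j with
    | zero => intro i; simp
    | succ j ih =>
      intro i
      have : i + ((j + 1 : ℕ) : ZMod k) = (i + j) + 1 := by push_cast; ring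
      rw [this, hconst, ih]
  have hall : ∀ i i' : ZMod k, rk (s i') = rk (s i) := by
    intro i i'
    have h := hconst' (i' - i).val i
    have : i + (((i' - i).val : ℕ) : ZMod k) = i' := by
      rw [ZMod.natCast_val, ZMod.cast_id]; ring
    rwa [this] at h
  obtain ⟨i0, hi0⟩ := hne
  have hrk : ∀ i, rk (s i) ≠ 0 := by
    intro i h
    rw [hall i0 i] at h
    have := rk_zero _ h
    simp only [hs, Prod.mk.injEq] at this
    exact hi0 this.1
  have e1 : ∀ i, rk (nxt (b i) (s i)) = rk (s i) := fun i => by rw [← hstep, hconst]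
  refine ⟨fun i => fill (s i), fun i => fill_ne _ (hrk i), ?_, ?_⟩
  · intro i hi
    simp only [fill, hs]
    rw [if_pos hi]
  · intro i
    have h3 : s (i + 3) = nxt (b (i + 2)) (nxt (b (i + 1)) (nxt (b i) (s i))) := by
      have h1 : i + 3 = i + 2 + 1 := by ring
      have h2 : i + 2 = i + 1 + 1 := by ring
      rw [h1, hstep, h2, hstep, hstep]
    have hB : s (i + 2) = nxt (b (i + 1)) (nxt (b i) (s i)) := by
      have h2 : i + 2 = i + 1 + 1 := by ring
      rw [h2, hstep, hstep]
    have := fill_check (s i) (b i) (b (i + 1)) (b (i + 2)) (hrk i) (e1 i)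
      (by rw [← hB]; exact hall _ _) (by rw [← h3]; exact hall _ _)
    show fill (s (i + 3)) = if b i then -(max (fill (s i)) (fill (s (i + 1)))) else -fill (s i)
    rw [h3, this, hstep]

end Pool.Agent.H33.Rec
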