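import Pool.Agent.H33.Rec.Fix
import Pool.Agent.H33.Rec.Fill
import Pool.Agent.H33.Rec.Defs

set_option autoImplicit false

/-! A periodic solution from strict weights, by a blow-up argument. -/

namespace Pool.Agent.H33.Rec

open Real Filter Topology

variable {k : ℕ} [NeZero k]

/-- threshold at `±1` -/
noncomputable def thr (t : ℝ) : SignType :=
  if t = 1 then SignType.pos else if t = -1 then SignType.neg else SignType.zero

lemma thr_neg (t : ℝ) : thr (-t) = - thr t := by
  unfold thr
  by_cases h1 : t = 1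
  · subst h1; norm_num
  · by_cases h2 : t = -1
    · subst h2; norm_num
    · have h3 : -t ≠ 1 := fun h => h2 (by linarith)
      have h4 : -t ≠ -1 := fun h => h1 (by linarith)
      simp only [h1, h2, h3, h4, if_false]; rfl

lemma thr_mono {s t : ℝ} (hs : |s| ≤ 1) (ht : |t| ≤ 1) (h : s ≤ t) : thr s ≤ thr t := by
  rw [abs_le] at hs ht
  unfold thr
  by_cases h1 : s = 1
  · have : t = 1 := le_antisymm ht.2 (h1 ▸ h)
    simp [h1, this]
  · by_cases h2 : s = -1
    · rw [if_neg h1, if_pos h2]
      split_ifs <;> decide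
    · rw [if_neg h1, if_neg h2]
      have h3 : t ≠ -1 := by
        intro h3
        apply h2
        linarith
      rw [if_neg h3]
      split_ifs <;> decide

lemma thr_max {s t : ℝ} (hs : |s| ≤ 1) (ht : |t| ≤ 1) : thr (max s t) = max (thr s) (thr t) := by
  rcases le_total s t with h | h
  · rw [max_eq_right h, max_eq_right (thr_mono hs ht h)]
  · rw [max_eq_left h, max_eq_left (thr_mono ht hs h)]

/-- the data produced by a blow-up -/
structure BlowUp (C : ZMod k → ℝ) where
  w : ℕ → ZMod k → ℝ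
  ρ : ℕ → ℝ
  N : ℕ → ℝ
  z : ZMod k → ℝ
  ρ_pos : ∀ j, 0 < ρ j
  ρ_lt : ∀ j, ρ j < 1
  ρ_lim : Tendsto ρ atTop (𝓝 1)
  N_lim : Tendsto N atTop atTop
  N_pos : ∀ j, 0 < N j
  eq : ∀ j i, w j (i + 3) = ρ j * L (C i) (w j i) (w j (i + 1))
  z_lim : ∀ i, Tendsto (fun j => w j i / N j) atTop (𝓝 (z i))
  z_le : ∀ i, |z i| ≤ 1
  z_ne : ∃ i, |z i| = 1

lemma exists_blowUp {C : ZMod k → ℝ} (hC : ∀ i, 0 ≤ C i) (hno : ¬ ∃ y : ZMod k → ℝ, IsFix C y) :
    Nonempty (BlowUp C) := by
  choose y hy using fun j => exists_afix hC (rad_nonneg j) (rad_lt_one j) (0 : ZMod k → ℝ)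
  -- norms tend to infinity
  have hN : Tendsto (fun j => ‖y j‖) atTop atTop := by
    rw [tendsto_atTop]
    intro M
    by_contra hcon
    have hfr : ∃ᶠ j in atTop, ‖y j‖ ≤ M := by
      rw [Filter.Frequently]
      intro h
      apply hcon
      filter_upwards [h] with j hj
      exact (not_le.mp hj).le
    obtain ⟨ψ, hψ, hψM⟩ := extraction_of_frequently_atTop hfr
    obtain ⟨z, _, _, hz, _⟩ := exists_subseq_fix hC hy hψ (M := M) (fun j i => by
      rw [← Real.norm_eq_abs]
      exact (norm_le_pi_norm _ _).trans (hψM j))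
    exact hno ⟨z, hz⟩
  obtain ⟨J, hJ⟩ := (hN.eventually_gt_atTop 0).exists_forall_of_atTop
  set y' : ℕ → ZMod k → ℝ := fun j => (‖y (j + J)‖)⁻¹ • y (j + J) with hy'
  have hpos : ∀ j, 0 < ‖y (j + J)‖ := fun j => hJ _ (by omega)
  have hnorm : ∀ j, ‖y' j‖ = 1 := by
    intro j
    simp only [hy', norm_smul, norm_inv, norm_norm]
    exact inv_mul_cancel₀ (hpos j).ne'
  have hcomp : IsCompact (Metric.sphere (0 : ZMod k → ℝ) 1) := isCompact_sphere _ _
  obtain ⟨z, hzS, φ, hφ, hz⟩ := hcomp.tendsto_subseq (x := y') (fun j => by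
    rw [mem_sphere_zero_iff_norm]; exact hnorm j)
  have hz1 : ‖z‖ = 1 := by rwa [mem_sphere_zero_iff_norm] at hzS
  have hshift : Tendsto (fun j => φ j + J) atTop atTop :=
    (tendsto_add_atTop_nat J).comp hφ.tendsto_atTop
  refine ⟨⟨fun j => y (φ j + J), fun j => rad (φ j + J), fun j => ‖y (φ j + J)‖, z,
    fun j => rad_pos _, fun j => rad_lt_one _, rad_tendsto.comp hshift, hN.comp hshift,
    fun j => hpos _, ?_, ?_, ?_, ?_⟩⟩
  · intro j i
    have := hy (φ j + J) i
    simpa using this
  · intro i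
    have h1 := (tendsto_pi_nhds.mp hz) i
    refine h1.congr fun j => ?_
    simp only [hy', Function.comp, Pi.smul_apply, smul_eq_mul]
    rw [div_eq_inv_mul]
  · intro i
    have := norm_le_pi_norm z i
    rwa [hz1, Real.norm_eq_abs] at this
  · by_contra hcon
    push Not at hcon
    have hlt : ∀ i, |z i| < 1 := by
      intro i
      have := norm_le_pi_norm z i
      rw [hz1, Real.norm_eq_abs] at this
      exact lt_of_le_of_ne this (hcon i)
    have : ‖z‖ < 1 := by
      rw [pi_norm_lt_iff one_pos]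
      intro i
      rw [Real.norm_eq_abs]
      exact hlt i
    rw [hz1] at this
    exact lt_irrefl _ this

omit [NeZero k] in
lemma BlowUp.z_rec {C : ZMod k → ℝ} (hC : ∀ i, 0 ≤ C i) (D : BlowUp C) (i : ZMod k) :
    D.z (i + 3) = if C i = 0 then -D.z i else -max (D.z i) (D.z (i + 1)) := by
  have h3 := D.z_lim (i + 3)
  split_ifs with hc
  · have h1 : Tendsto (fun j => D.ρ j * -(D.w j i / D.N j)) atTop (𝓝 (1 * -D.z i)) :=
      D.ρ_lim.mul (D.z_lim i).neg
    have h2 : (fun j => D.w j (i + 3) / D.N j) = fun j => D.ρ j * -(D.w j i / D.N j) := by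
      funext j
      rw [D.eq, hc, L_zero]; ring
    rw [h2] at h3
    have := tendsto_nhds_unique h3 h1
    linarith
  · have hc' : 0 < C i := lt_of_le_of_ne (hC i) (Ne.symm hc)
    obtain ⟨K, hK⟩ := L_near_max hc'
    have hmax : Tendsto (fun j => max (D.w j i / D.N j) (D.w j (i + 1) / D.N j)) atTop
        (𝓝 (max (D.z i) (D.z (i + 1)))) := (D.z_lim i).max (D.z_lim (i + 1))
    have herr : Tendsto (fun j => (L (C i) (D.w j i) (D.w j (i + 1)) +
        max (D.w j i) (D.w j (i + 1))) / D.N j) atTop (𝓝 0) := by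
      refine squeeze_zero_norm (a := fun j => K / D.N j) (fun j => ?_) (D.N_lim.const_div_atTop K)
      rw [norm_div, Real.norm_eq_abs, Real.norm_eq_abs, abs_of_pos (D.N_pos j)]
      exact div_le_div_of_nonneg_right (hK _ _) (D.N_pos j).le
    have h1 := D.ρ_lim.mul (herr.sub hmax)
    have h2 : (fun j => D.w j (i + 3) / D.N j) = fun j => D.ρ j *
        ((L (C i) (D.w j i) (D.w j (i + 1)) + max (D.w j i) (D.w j (i + 1))) / D.N j -
          max (D.w j i / D.N j) (D.w j (i + 1) / D.N j)) := by
      funext j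
      rw [D.eq, max_div_div_right (D.N_pos j).le]
      ring
    rw [h2] at h3
    have := tendsto_nhds_unique h3 h1
    linarith

omit [NeZero k] in
/-- the signs of the limit follow the max rule -/
lemma BlowUp.thr_rec {C : ZMod k → ℝ} (hC : ∀ i, 0 ≤ C i) (D : BlowUp C) (i : ZMod k) :
    thr (D.z (i + 3)) = if (decide (C i ≠ 0)) then -(max (thr (D.z i)) (thr (D.z (i + 1))))
      else -(thr (D.z i)) := by
  rw [D.z_rec hC]
  by_cases hc : C i = 0
  · simp [hc, thr_neg]
  · simp only [hc, if_false, ne_eq, not_false_eq_true, decide_true, if_true]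
    rw [thr_neg, thr_max (D.z_le _) (D.z_le _)]

lemma thr_eq_pos {t : ℝ} : thr t = SignType.pos ↔ t = 1 := by
  unfold thr
  by_cases h1 : t = 1
  · simp [h1]
  · rw [if_neg h1]
    by_cases h2 : t = -1
    · rw [if_pos h2]; simp [h1]
    · rw [if_neg h2]; simp [h1]

lemma thr_eq_neg {t : ℝ} : thr t = SignType.neg ↔ t = -1 := by
  unfold thr
  by_cases h1 : t = 1
  · rw [if_pos h1, h1]; norm_num
  · rw [if_neg h1]
    by_cases h2 : t = -1
    · rw [if_pos h2]; simp [h2]
    · rw [if_neg h2]; simp [h2]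

lemma thr_ne_zero {t : ℝ} (h : |t| = 1) : thr t ≠ SignType.zero := by
  rcases eq_or_eq_neg_of_abs_eq h with h | h
  · rw [thr_eq_pos.mpr h]; decide
  · rw [thr_eq_neg.mpr h]; decide

lemma cast_neg_sign : ∀ a : SignType, ((-a : SignType) : ℤ) = -((a : SignType) : ℤ) := by decide

lemma cast_negmax_sign : ∀ a b : SignType,
    ((-(max a b) : SignType) : ℤ) = -max ((a : SignType) : ℤ) ((b : SignType) : ℤ) := by decide

/-- the completed sign pattern of a blow-up -/
lemma BlowUp.exists_pattern {C : ZMod k → ℝ} (hC : ∀ i, 0 ≤ C i) (D : BlowUp C) :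
    ∃ ε : ZMod k → ℤ, IsSignPattern C ε ∧ (∀ i, D.z i = 1 → ε i = 1) ∧
      (∀ i, D.z i = -1 → ε i = -1) := by
  obtain ⟨ε, hε0, hεσ, hεrec⟩ := completion (fun i => decide (C i ≠ 0)) (fun i => thr (D.z i))
    (D.thr_rec hC) (by
      obtain ⟨i, hi⟩ := D.z_ne
      exact ⟨i, thr_ne_zero hi⟩)
  refine ⟨fun i => (ε i : ℤ), fun i => ⟨?_, ?_⟩, fun i hi => ?_, fun i hi => ?_⟩
  · have := hε0 i
    rcases h : ε i with _ | _ | _
    · exact absurd h this
    · right
      show ((ε i : SignType) : ℤ) = -1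
      rw [h]; rfl
    · left
      show ((ε i : SignType) : ℤ) = 1
      rw [h]; rfl
  · show ((ε (i + 3) : SignType) : ℤ) = if C i = 0 then -((ε i : SignType) : ℤ)
      else -max ((ε i : SignType) : ℤ) ((ε (i + 1) : SignType) : ℤ)
    rw [hεrec i]
    by_cases hc : C i = 0
    · rw [if_pos hc, if_neg (by simp [hc])]
      exact cast_neg_sign _
    · rw [if_neg hc, if_pos (by simp [hc])]
      exact cast_negmax_sign _ _
  · have h1 : thr (D.z i) = SignType.pos := thr_eq_pos.mpr hi
    have h2 := hεσ i (by rw [h1]; decide)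
    rw [h1] at h2
    show ((ε i : SignType) : ℤ) = 1
    rw [h2]; rfl
  · have h1 : thr (D.z i) = SignType.neg := thr_eq_neg.mpr hi
    have h2 := hεσ i (by rw [h1]; decide)
    rw [h1] at h2
    show ((ε i : SignType) : ℤ) = -1
    rw [h2]; rfl

omit [NeZero k] in
lemma BlowUp.exp_small {C : ZMod k → ℝ} (D : BlowUp C) {m n : ZMod k} (hm : D.z m ≠ 1)
    (hn : D.z n = -1) : Tendsto (fun j => exp (D.w j m + D.w j n)) atTop (𝓝 0) := by
  have h1 : Tendsto (fun j => (D.w j m / D.N j + D.w j n / D.N j)) atTop (𝓝 (D.z m + D.z n)) :=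
    (D.z_lim m).add (D.z_lim n)
  have hneg : D.z m + D.z n < 0 := by
    have := D.z_le m
    rw [abs_le] at this
    have := lt_of_le_of_ne this.2 hm
    linarith
  have h2 : Tendsto (fun j => (D.w j m / D.N j + D.w j n / D.N j) * D.N j) atTop atBot :=
    h1.neg_mul_atTop hneg D.N_lim
  have h3 : (fun j => (D.w j m / D.N j + D.w j n / D.N j) * D.N j) =
      fun j => D.w j m + D.w j n := by
    funext j
    field_simp [(D.N_pos j).ne']
  rw [h3] at h2
  exact Real.tendsto_exp_atBot.comp h2

omit [NeZero k] in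
lemma BlowUp.step {C : ZMod k → ℝ} (hC : ∀ i, 0 ≤ C i) (D : BlowUp C) {ε : ZMod k → ℤ}
    (hpos : ∀ i, D.z i = 1 → ε i = 1) (hneg : ∀ i, D.z i = -1 → ε i = -1) {v : ZMod k → ℝ}
    (hv : IsWeight C ε v) (i : ZMod k) (hi : |D.z (i + 3)| = 1) :
    ∀ᶠ j in atTop, ¬ ∀ m, |D.z m| = 1 →
      exp (D.z m * D.w j m) / v m ≤ exp (D.z (i + 3) * D.w j (i + 3)) / v (i + 3) := by
  have hvpos : ∀ m, 0 < v m := fun m => (hv m).1
  have hrec := D.z_rec hC i
  rcases eq_or_eq_neg_of_abs_eq hi with h1 | h1
  · -- large coordinate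
    have hzi : D.z i = -1 := by
      rw [h1] at hrec
      have hb := D.z_le i
      rw [abs_le] at hb
      split_ifs at hrec with hc
      · linarith
      · have := le_max_left (D.z i) (D.z (i + 1))
        linarith
    have hzi1 : C i ≠ 0 → D.z (i + 1) = -1 := by
      intro hc
      rw [h1, if_neg hc] at hrec
      have hb := D.z_le (i + 1)
      rw [abs_le] at hb
      have := le_max_right (D.z i) (D.z (i + 1))
      linarith
    have hw := (hv i).2.1 (hpos _ h1)
    have hlarge : ∀ᶠ j in atTop, 0 < D.w j (i + 3) := by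
      have h2 := (D.z_lim (i + 3)).eventually_const_lt (u := 0) (by rw [h1]; exact one_pos)
      filter_upwards [h2] with j hj
      exact (div_pos_iff_of_pos_right (D.N_pos j)).mp hj
    filter_upwards [hlarge] with j hj hall
    set l := exp (D.z (i + 3) * D.w j (i + 3)) / v (i + 3) with hl
    have hlpos : 0 < l := div_pos (exp_pos _) (hvpos _)
    have e1 : exp (D.w j (i + 3)) = l * v (i + 3) := by
      rw [hl, h1, one_mul, div_mul_cancel₀ _ (hvpos _).ne']
    have a1 : 1 / (l * v i) ≤ exp (D.w j i) := by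
      have := hall i (by rw [hzi]; simp)
      rw [hzi, div_le_iff₀ (hvpos _)] at this
      rw [neg_one_mul, exp_neg] at this
      have h5 := one_div_le_one_div_of_le (by positivity) this
      rwa [one_div, one_div, inv_inv, ← one_div] at h5
    have a2 : C i / (l * v (i + 1)) ≤ C i * exp (D.w j (i + 1)) := by
      by_cases hc : C i = 0
      · simp [hc]
      · have hz := hzi1 hc
        have := hall (i + 1) (by rw [hz]; simp)
        rw [hz, div_le_iff₀ (hvpos _)] at this
        rw [neg_one_mul, exp_neg] at this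
        have h5 := one_div_le_one_div_of_le (by positivity) this
        rw [one_div, one_div, inv_inv, ← one_div] at h5
        have h6 := mul_le_mul_of_nonneg_left h5 (hC i)
        rwa [mul_one_div] at h6
    have a3 : (C i / v (i + 1) + 1 / v i) / l ≤ C i * exp (D.w j (i + 1)) + exp (D.w j i) := by
      have : (C i / v (i + 1) + 1 / v i) / l = C i / (l * v (i + 1)) + 1 / (l * v i) := by
        field_simp
      rw [this]
      exact add_le_add a2 a1
    have hS : 0 < C i / v (i + 1) + 1 / v i := by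
      have := hvpos i
      have := hvpos (i + 1)
      have := hC i
      positivity
    have a4 : exp (L (C i) (D.w j i) (D.w j (i + 1))) < exp (D.w j (i + 3)) := by
      rw [exp_L (hC i), e1]
      calc 1 / (C i * exp (D.w j (i + 1)) + exp (D.w j i))
          ≤ 1 / ((C i / v (i + 1) + 1 / v i) / l) :=
            one_div_le_one_div_of_le (by positivity) a3
        _ = l * (1 / (C i / v (i + 1) + 1 / v i)) := by field_simp
        _ < l * v (i + 3) := mul_lt_mul_of_pos_left hw hlpos
    have a5 := exp_lt_exp.mp a4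
    rw [D.eq j i] at a5 hj
    have hL : 0 < L (C i) (D.w j i) (D.w j (i + 1)) := (pos_iff_pos_of_mul_pos hj).mp (D.ρ_pos j)
    have := mul_lt_mul_of_pos_right (D.ρ_lt j) hL
    linarith
  · -- small coordinate
    have hw := (hv i).2.2 (hneg _ h1)
    set Q := (if ε (i + 1) = 1 then C i * v (i + 1) else 0) + (if ε i = 1 then v i else 0) with hQ
    set η := (v (i + 3) - Q) / (2 * (C i + 1)) with hη
    have hC1 : 0 < C i + 1 := by linarith [hC i]
    have hηpos : 0 < η := div_pos (by linarith) (by linarith)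
    have hsmall : ∀ᶠ j in atTop, D.w j (i + 3) < 0 := by
      have h2 := (D.z_lim (i + 3)).eventually_lt_const (u := 0) (by rw [h1]; norm_num)
      filter_upwards [h2] with j hj
      by_contra hcon
      push Not at hcon
      exact absurd (div_nonneg hcon (D.N_pos j).le) (not_le.mpr hj)
    have hm : ∀ m : ZMod k, ∀ᶠ j in atTop, (∀ m, |D.z m| = 1 →
        exp (D.z m * D.w j m) / v m ≤ exp (D.z (i + 3) * D.w j (i + 3)) / v (i + 3)) →
        exp (D.w j m) ≤ (exp (-D.w j (i + 3)) / v (i + 3)) *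
          ((if ε m = 1 then v m else 0) + η) := by
      intro m
      by_cases hz : D.z m = 1
      · refine Eventually.of_forall fun j hall => ?_
        have h2 := hall m (by rw [hz]; simp)
        rw [hz, h1, one_mul, neg_one_mul, div_le_iff₀ (hvpos _)] at h2
        rw [if_pos (hpos _ hz)]
        have h3 : 0 < exp (-D.w j (i + 3)) / v (i + 3) := div_pos (exp_pos _) (hvpos _)
        nlinarith
      · have h2 := (D.exp_small hz h1).eventually_lt_const (u := η / v (i + 3))
          (div_pos hηpos (hvpos _))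
        filter_upwards [h2] with j hj _
        have h3 : 0 < exp (-D.w j (i + 3)) / v (i + 3) := div_pos (exp_pos _) (hvpos _)
        have h4 : exp (D.w j m) = exp (-D.w j (i + 3)) * exp (D.w j m + D.w j (i + 3)) := by
          rw [← exp_add]; congr 1; ring
        have h5 : exp (D.w j m) ≤ exp (-D.w j (i + 3)) / v (i + 3) * η := by
          rw [h4]
          have := mul_le_mul_of_nonneg_left hj.le (exp_pos (-D.w j (i + 3))).le
          calc _ ≤ _ := this
            _ = _ := by ring
        have h6 : 0 ≤ (if ε m = 1 then v m else 0) := by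
          split_ifs
          · exact (hvpos m).le
          · exact le_rfl
        nlinarith
    filter_upwards [hsmall, hm i, hm (i + 1)] with j hj hm1 hm2 hall
    have b1 := hm1 hall
    have b2 := hm2 hall
    set l := exp (-D.w j (i + 3)) / v (i + 3) with hl
    have hlpos : 0 < l := div_pos (exp_pos _) (hvpos _)
    have e1 : exp (-D.w j (i + 3)) = l * v (i + 3) := by
      rw [hl, div_mul_cancel₀ _ (hvpos _).ne']
    have hL : L (C i) (D.w j i) (D.w j (i + 1)) < 0 := by
      rw [D.eq j i] at hj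
      by_contra hcon
      push Not at hcon
      have := mul_nonneg (D.ρ_pos j).le hcon
      linarith
    have hLle : -D.w j (i + 3) ≤ -L (C i) (D.w j i) (D.w j (i + 1)) := by
      rw [D.eq j i]
      nlinarith [D.ρ_lt j]
    have c1 := exp_le_exp.mpr hLle
    rw [exp_neg_L (hC i), e1] at c1
    have c2 : C i * exp (D.w j (i + 1)) ≤ C i * (l * ((if ε (i + 1) = 1 then v (i + 1) else 0) + η)) :=
      mul_le_mul_of_nonneg_left b2 (hC i)
    have c3 : l * v (i + 3) ≤ l * (Q + (C i + 1) * η) := by
      have : l * (Q + (C i + 1) * η) =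
          C i * (l * ((if ε (i + 1) = 1 then v (i + 1) else 0) + η)) +
          l * ((if ε i = 1 then v i else 0) + η) := by
        rw [hQ]
        split_ifs <;> ring
      rw [this]
      linarith
    have c4 := le_of_mul_le_mul_left c3 hlpos
    have c5 : (C i + 1) * η = (v (i + 3) - Q) / 2 := by
      rw [hη]; field_simp
    rw [c5] at c4
    linarith

lemma BlowUp.false_of_weight {C : ZMod k → ℝ} (hC : ∀ i, 0 ≤ C i) (D : BlowUp C)
    {ε : ZMod k → ℤ}
    (hpos : ∀ i, D.z i = 1 → ε i = 1) (hneg : ∀ i, D.z i = -1 → ε i = -1) {v : ZMod k → ℝ}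
    (hv : IsWeight C ε v) : False := by
  have hall : ∀ᶠ j in atTop, ∀ i : ZMod k, |D.z i| = 1 → ¬ ∀ m, |D.z m| = 1 →
      exp (D.z m * D.w j m) / v m ≤ exp (D.z i * D.w j i) / v i := by
    rw [eventually_all]
    intro i
    by_cases hi : |D.z i| = 1
    · have e : i = (i - 3) + 3 := by ring
      have := D.step hC hpos hneg hv (i - 3) (by rw [← e]; exact hi)
      rw [← e] at this
      filter_upwards [this] with j hj _
      exact hj
    · exact Eventually.of_forall fun j h => absurd h hi
  obtain ⟨j, hj⟩ := hall.exists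
  obtain ⟨i0, hi0⟩ := D.z_ne
  classical
  obtain ⟨m, hm, hmax⟩ := (Finset.univ.filter fun i : ZMod k => |D.z i| = 1).exists_max_image
    (fun i => exp (D.z i * D.w j i) / v i) ⟨i0, by simp [hi0]⟩
  refine hj m (Finset.mem_filter.mp hm).2 fun m' hm' => hmax m' ?_
  simp [hm']

/-- Strict weights for all sign patterns force a periodic solution. -/
lemma fix_of_weights {C : ZMod k → ℝ} (hC : ∀ i, 0 ≤ C i)
    (h : ∀ ε, IsSignPattern C ε → ∃ v, IsWeight C ε v) : ∃ y : ZMod k → ℝ, IsFix C y := by
  by_contra hno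
  obtain ⟨D⟩ := exists_blowUp hC hno
  obtain ⟨ε, h1, h2, h3⟩ := D.exists_pattern hC
  obtain ⟨v, hv⟩ := h ε h1
  exact D.false_of_weight hC h2 h3 hv

end Pool.Agent.H33.Rec
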