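import Pool.Agent.H33.Rec.Walk3

set_option autoImplicit false

/-! Final form of the criterion. -/

namespace Pool.Agent.H33.Rec

variable {k : ℕ} [NeZero k]

lemma runCond_of_lt {C : ZMod k → ℝ}
    (h : ∀ n < k, ∀ j : ℕ, walk (fun m : ℕ => C m) n j = n + k →
      ∃ p : ℝ × ℝ × ℝ, 0 < p.1 ∧ 0 < p.2.1 ∧ 0 < p.2.2 ∧
        (run (fun m : ℕ => C m) n p j).1 < p.1 ∧
        (run (fun m : ℕ => C m) n p j).2.1 < p.2.1 ∧
        (run (fun m : ℕ => C m) n p j).2.2 < p.2.2) : RunCond C := by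
  intro n j hj
  have hk : 1 ≤ k := Nat.one_le_iff_ne_zero.mpr (NeZero.ne k)
  have hfun : (fun m : ℕ => C ((n + m : ℕ) : ZMod k)) =
      fun m : ℕ => C ((n % k + m : ℕ) : ZMod k) := by
    funext m
    congr 1
    push_cast
    rw [ZMod.natCast_mod]
  have hw : walk (fun m : ℕ => C m) (n % k) j = n % k + k := by
    rw [walk_shift] at hj ⊢
    show n % k + walk (fun m : ℕ => C ((n % k + m : ℕ) : ZMod k)) 0 j = n % k + k
    rw [← hfun]
    have : walk (fun m : ℕ => C ((n + m : ℕ) : ZMod k)) 0 j = k := Nat.add_left_cancel hj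
    rw [this]
  obtain ⟨p, h1, h2, h3, h4⟩ := h (n % k) (Nat.mod_lt _ hk) j hw
  refine ⟨p, h1, h2, h3, ?_⟩
  have hr : run (fun m : ℕ => C m) n p j = run (fun m : ℕ => C m) (n % k) p j := by
    rw [run_shift, run_shift (fun m : ℕ => C m) (n % k)]
    show run (fun m : ℕ => C ((n + m : ℕ) : ZMod k)) 0 p j =
      run (fun m : ℕ => C ((n % k + m : ℕ) : ZMod k)) 0 p j
    rw [hfun]
  rw [hr]
  exact h4

theorem allBounded_iff_final {C : ZMod k → ℝ} (hC : ∀ i, 0 ≤ C i) :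
    AllBounded C ↔
      (∀ i : ZMod k, (∀ j : ℕ, C (i + 6 * j) = 0) → ∀ j : ℕ, C (i + 3 + 6 * j) = 0) ∧
      ((∃ i : ZMod k, ∀ j : ℕ, C (i + 3 * j) = 0) ∨
        ∀ n < k, ∀ j : ℕ, walk (fun m : ℕ => C m) n j = n + k →
          ∃ p : ℝ × ℝ × ℝ, 0 < p.1 ∧ 0 < p.2.1 ∧ 0 < p.2.2 ∧
            (run (fun m : ℕ => C m) n p j).1 < p.1 ∧
            (run (fun m : ℕ => C m) n p j).2.1 < p.2.1 ∧
            (run (fun m : ℕ => C m) n p j).2.2 < p.2.2) := by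
  rw [allBounded_iff_run hC]
  refine and_congr Iff.rfl (or_congr ?_ ?_)
  · unfold NoClass3; push Not; rfl
  · exact ⟨fun h n _ j hj => h n j hj, fun h => runCond_of_lt h⟩

theorem allBounded_of_pos {C : ZMod k → ℝ} (hC : ∀ i, 0 < C i) (h5 : ¬ 5 ∣ k) : AllBounded C :=
  (allBounded_iff_pos hC).mpr (Or.inl h5)

end Pool.Agent.H33.Rec
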