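import Pool.Agent.H33.Rec.Pos

set_option autoImplicit false

/-! The case `k = 5`. -/

namespace Pool.Agent.H33.Rec

lemma five_alg1 {a b c d X Y : ℝ} (ha : 0 < a) (hb : 0 ≤ b) (hc : 0 ≤ c) (hd : 0 ≤ d)
    (hX : 0 < X) (hY : 0 < Y) (h1 : 1 / (c / (b * Y + X) + 1 / (a * X)) < X)
    (h2 : 1 / (d / Y + 1 / (b * Y + X)) < Y) :
    a * (1 - c) < 1 ∧ 0 < 1 - a + a * c - a * b * c * (1 - d) := by
  have hS : 0 < b * Y + X := by positivity
  set S := b * Y + X with hSdef
  have e1 : (a - 1) * S < a * c * X := by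
    have h3 : 0 < c / S + 1 / (a * X) := by positivity
    rw [div_lt_iff₀ h3] at h1
    have h4 : X * (c / S + 1 / (a * X)) = (a * c * X + S) / (a * S) := by field_simp
    rw [h4, lt_div_iff₀ (by positivity)] at h1
    nlinarith
  have e2 : (1 - d) * S < Y := by
    have h3 : 0 < d / Y + 1 / S := by positivity
    rw [div_lt_iff₀ h3] at h2
    have h4 : Y * (d / Y + 1 / S) = (d * S + Y) / S := by field_simp
    rw [h4, lt_div_iff₀ hS] at h2
    nlinarith
  have hXS : X ≤ S := by rw [hSdef]; nlinarith [mul_nonneg hb hY.le]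
  have e3 : a * c * X ≤ a * c * S := mul_le_mul_of_nonneg_left hXS (by positivity)
  constructor
  · have : (a - 1) * S < a * c * S := lt_of_lt_of_le e1 e3
    have := lt_of_mul_lt_mul_right this hS.le
    linarith
  · have e4 : a * b * c * ((1 - d) * S) ≤ a * b * c * Y :=
      mul_le_mul_of_nonneg_left e2.le (by positivity)
    have e5 : a * b * c * Y = a * c * (S - X) := by rw [hSdef]; ring
    have e6 : (a * b * c * (1 - d)) * S < (1 - a + a * c) * S := by nlinarith
    have := lt_of_mul_lt_mul_right e6 hS.le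
    linarith

lemma five_alg2 {a b c d : ℝ} (ha : 0 < a) (hb : 0 ≤ b) (hc : 0 ≤ c) (hd : 0 ≤ d)
    (h1 : a * (1 - c) < 1) (h2 : b * (1 - d) < 1)
    (h3 : 0 < 1 - a + a * c - a * b * c * (1 - d)) :
    ∃ X Y : ℝ, 0 < X ∧ 0 < Y ∧ 1 / (c / (b * Y + X) + 1 / (a * X)) < X ∧
      1 / (d / Y + 1 / (b * Y + X)) < Y := by
  have hA : 0 < 1 - b * (1 - d) := by linarith
  have hP : 0 < 1 - a + a * c := by linarith
  obtain ⟨r, hr0, hr1, hr2⟩ : ∃ r : ℝ, 0 < r ∧ 1 - d < r * (1 - b * (1 - d)) ∧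
      (a - 1) * b * r < 1 - a + a * c := by
    rcases le_or_gt ((a - 1) * b) 0 with hab | hab
    · refine ⟨max 0 ((1 - d) / (1 - b * (1 - d))) + 1, ?_, ?_, ?_⟩
      · have := le_max_left 0 ((1 - d) / (1 - b * (1 - d))); linarith
      · have h4 := le_max_right 0 ((1 - d) / (1 - b * (1 - d)))
        rw [div_le_iff₀ hA] at h4
        nlinarith
      · have : 0 < max 0 ((1 - d) / (1 - b * (1 - d))) + 1 := by
          have := le_max_left 0 ((1 - d) / (1 - b * (1 - d))); linarith
        nlinarith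
    · have hlt : max 0 ((1 - d) / (1 - b * (1 - d))) < (1 - a + a * c) / ((a - 1) * b) := by
        refine max_lt (div_pos hP hab) ?_
        rw [div_lt_div_iff₀ hA hab]
        nlinarith
      obtain ⟨r, h4, h5⟩ := exists_between hlt
      refine ⟨r, lt_of_le_of_lt (le_max_left _ _) h4, ?_, ?_⟩
      · have := lt_of_le_of_lt (le_max_right _ _) h4
        rwa [div_lt_iff₀ hA] at this
      · rw [lt_div_iff₀ hab] at h5
        linarith
  have hS : 0 < b * r + 1 := by positivity
  refine ⟨1, r, one_pos, hr0, ?_, ?_⟩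
  · have h3 : 0 < c / (b * r + 1) + 1 / (a * 1) := by positivity
    rw [div_lt_iff₀ h3]
    have h4 : 1 * (c / (b * r + 1) + 1 / (a * 1)) = (a * c + (b * r + 1)) / (a * (b * r + 1)) := by
      field_simp
    rw [h4, lt_div_iff₀ (by positivity)]
    nlinarith
  · have h3 : 0 < d / r + 1 / (b * r + 1) := by positivity
    rw [div_lt_iff₀ h3]
    have h4 : r * (d / r + 1 / (b * r + 1)) = (d * (b * r + 1) + r) / (b * r + 1) := by
      field_simp
    rw [h4, lt_div_iff₀ hS]
    nlinarith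

theorem allBounded_iff_five {C : ZMod 5 → ℝ} (hC : ∀ i, 0 ≤ C i) :
    AllBounded C ↔ ∀ i, C i * (1 - C (i + 3)) < 1 ∧
      0 < 1 - C i + C i * C (i + 3) - C i * C (i + 1) * C (i + 3) * (1 - C (i + 4)) := by
  have hcov2 : ∀ i i' : ZMod 5, ∃ j : Fin 5, i + 2 * ((j : ℕ) : ZMod 5) = i' := by decide
  have hcov3 : ∀ i i' : ZMod 5, ∃ j : Fin 5, i + 3 * ((j : ℕ) : ZMod 5) = i' := by decide
  have hcov6 : ∀ i i' : ZMod 5, ∃ j : Fin 5, i + 6 * ((j : ℕ) : ZMod 5) = i' := by decide
  have h6 : Six C := by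
    intro i hi j
    obtain ⟨j', hj'⟩ := hcov6 i (i + 3 + 6 * j)
    rw [← hj']; exact hi _
  have e5 : ∀ i : ZMod 5, i + 5 = i := by decide
  rw [allBounded_iff hC]
  by_cases hz : ∀ i, C i = 0
  · refine ⟨fun _ i => by simp [hz], fun _ => ⟨h6, Or.inl fun h => ?_⟩⟩
    obtain ⟨j, hj⟩ := h 0
    exact hj (hz _)
  push Not at hz
  obtain ⟨iz, hiz⟩ := hz
  have h3 : NoClass3 C := by
    intro i
    obtain ⟨j, hj⟩ := hcov3 i iz
    exact ⟨j, by rw [hj]; exact hiz⟩
  constructor
  · rintro ⟨-, h | h⟩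
    · exact absurd h3 h
    · intro i
      by_cases hi : C i = 0
      · simp [hi]
      · have hCi : 0 < C i := lt_of_le_of_ne (hC i) (Ne.symm hi)
        have hs : ∀ j : ZMod 5, (j + 1 - i) = (j - i) + 1 := fun j => by ring
        obtain ⟨v, hv⟩ := h _ (pattern_of_class (C := C) (s := fun j => j - i) hs fun j hj => by
          rw [sub_eq_zero] at hj; rw [hj]; exact hi)
        obtain ⟨hX, hY, p1, p2⟩ := pair_of_weight hC hs hv (i := i) (sub_self _) hCi
        simp only [e5] at p1 p2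
        exact five_alg1 hCi (hC _) (hC _) (hC _) hX hY p1 p2
  · intro h
    refine ⟨h6, Or.inr fun ε hε => ?_⟩
    have hrule := rule_of_pattern hε
    rcases exists_tt_or hrule with ⟨n0, hn0⟩ | ⟨n, hn⟩
    · have hC0 : C (n0 : ZMod 5) ≠ 0 := by
        intro hc
        obtain ⟨a1, a2, -⟩ := tt_next_six hrule hn0 hc
        apply a2
        obtain ⟨b0, b1, b2⟩ := a1
        refine ⟨?_, ?_, ?_⟩
        · have e1 : ((n0 + 6 : ℕ) : ZMod 5) = ((n0 + 1 : ℕ) : ZMod 5) := by
            push_cast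
            have : (6 : ZMod 5) = 1 := by decide
            rw [this]
          show ε ((n0 + 1 : ℕ) : ZMod 5) = -1
          rw [← e1]; exact b0
        · have e1 : ((n0 + 6 + 1 : ℕ) : ZMod 5) = ((n0 + 1 + 1 : ℕ) : ZMod 5) := by
            push_cast
            have : (6 : ZMod 5) = 1 := by decide
            rw [this]
          show ε ((n0 + 1 + 1 : ℕ) : ZMod 5) = 1
          rw [← e1]; exact b1
        · have e1 : ((n0 + 6 + 2 : ℕ) : ZMod 5) = ((n0 + 1 + 2 : ℕ) : ZMod 5) := by
            push_cast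
            have : (6 : ZMod 5) = 1 := by decide
            rw [this]
          show ε ((n0 + 1 + 2 : ℕ) : ZMod 5) = 1
          rw [← e1]; exact b2
      have hall : ∀ t : ℕ, C ((n0 + 5 * t : ℕ) : ZMod 5) ≠ 0 := by
        intro t
        have e1 : ((n0 + 5 * t : ℕ) : ZMod 5) = n0 := by
          push_cast
          have : (5 : ZMod 5) = 0 := by decide
          rw [this, zero_mul, add_zero]
        rw [e1]; exact hC0
      have hpat := pattern_eq_pat hε (dvd_refl 5) hn0 hall
      have hcast : ∀ i : ZMod 5, ZMod.castHom (dvd_refl 5) (ZMod 5) i = i := by decide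
      simp only [hcast] at hpat
      have hs : ∀ j : ZMod 5, (j + 1 - (n0 : ZMod 5)) = (j - n0) + 1 := fun j => by ring
      have hCpos : 0 < C (n0 : ZMod 5) := lt_of_le_of_ne (hC _) (Ne.symm hC0)
      set i : ZMod 5 := (n0 : ZMod 5) with hi
      have e4 : i + 1 + 3 = i + 4 := by ring
      obtain ⟨p1, p2⟩ := h i
      have p3 := (h (i + 1)).1
      rw [e4] at p3
      obtain ⟨x, y, hx, hy, q1, q2⟩ := five_alg2 hCpos (hC (i + 1)) (hC (i + 3)) (hC (i + 4))
        p1 p3 p2
      obtain ⟨v, hv⟩ := weight_of_pair (s := fun j => j - i) hC hs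
        (fun j hj => by rw [sub_eq_zero] at hj; rw [hj]; exact hCpos)
        (X := fun _ => x) (Y := fun _ => y)
        (fun j hj => by
          rw [sub_eq_zero] at hj; rw [hj]
          exact ⟨hx, hy, q1, q2⟩)
      refine ⟨v, ?_⟩
      have hfun : ε = fun j => pat (j - i) := funext hpat
      rw [hfun]; exact hv
    · exfalso
      obtain ⟨j, hj⟩ := hcov2 (n : ZMod 5) iz
      apply hiz
      rw [← hj]
      have := hn j
      push_cast at this
      exact this

end Pool.Agent.H33.Rec
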