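import Pool.Agent.H33.Rec.Basic

set_option autoImplicit false

/-! Approximate fixed points, and a periodic solution from a bounded one. -/

namespace Pool.Agent.H33.Rec

open Real Filter Topology

variable {k : ℕ} [NeZero k]

/-- logarithm of a positive `k`-periodic solution -/
def IsFix (C : ZMod k → ℝ) (y : ZMod k → ℝ) : Prop :=
  ∀ i, y (i + 3) = L (C i) (y i) (y (i + 1))

def IsAFix (C : ZMod k → ℝ) (r : ℝ) (g y : ZMod k → ℝ) : Prop :=
  ∀ i, y (i + 3) = r * L (C i) (y i) (y (i + 1)) + (1 - r) * g (i + 3)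

lemma exists_afix {C : ZMod k → ℝ} (hC : ∀ i, 0 ≤ C i) {r : ℝ} (hr0 : 0 ≤ r) (hr1 : r < 1)
    (g : ZMod k → ℝ) : ∃ y, IsAFix C r g y := by
  set F : (ZMod k → ℝ) → (ZMod k → ℝ) := fun y i =>
    r * L (C (i - 3)) (y (i - 3)) (y (i - 2)) + (1 - r) * g i with hF
  have hlip : LipschitzWith ⟨r, hr0⟩ F := by
    refine LipschitzWith.of_dist_le_mul fun y y' => ?_
    refine (dist_pi_le_iff (by positivity)).mpr fun i => ?_
    simp only [hF]
    rw [Real.dist_eq]
    have h1 : |y (i - 3) - y' (i - 3)| ≤ dist y y' := by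
      rw [← Real.dist_eq]; exact dist_le_pi_dist y y' _
    have h2 : |y (i - 2) - y' (i - 2)| ≤ dist y y' := by
      rw [← Real.dist_eq]; exact dist_le_pi_dist y y' _
    have h3 := L_nonexp (hC (i - 3)) h1 h2
    have h4 : r * L (C (i - 3)) (y (i - 3)) (y (i - 2)) + (1 - r) * g i -
        (r * L (C (i - 3)) (y' (i - 3)) (y' (i - 2)) + (1 - r) * g i) =
        r * (L (C (i - 3)) (y (i - 3)) (y (i - 2)) - L (C (i - 3)) (y' (i - 3)) (y' (i - 2))) := by
      ring
    rw [h4, abs_mul, abs_of_nonneg hr0]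
    exact mul_le_mul_of_nonneg_left h3 hr0
  have hc : ContractingWith ⟨r, hr0⟩ F := ⟨by exact_mod_cast hr1, hlip⟩
  obtain ⟨y, hy⟩ : ∃ y, F y = y := ⟨hc.fixedPoint F, hc.fixedPoint_isFixedPt⟩
  refine ⟨y, fun i => ?_⟩
  have h := congrFun hy (i + 3)
  have e1 : i + 3 - 3 = i := by ring
  have e2 : i + 3 - 2 = i + 1 := by ring
  simp only [hF, e1, e2] at h
  exact h.symm

/-- distance of an approximate fixed point to a bounded sequence solving the recursion -/
lemma afix_bound {C : ZMod k → ℝ} (hC : ∀ i, 0 ≤ C i) {r : ℝ} (hr0 : 0 ≤ r) (hr1 : r < 1)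
    {g y : ZMod k → ℝ} (hy : IsAFix C r g y) {Y : ℕ → ℝ}
    (hY : ∀ n : ℕ, Y (n + 3) = L (C n) (Y n) (Y (n + 1))) {B B' : ℝ}
    (hB : ∀ n : ℕ, |g n - Y n| ≤ B) (hB' : ∀ n, |Y n| ≤ B') (i : ZMod k) : |y i| ≤ B + B' := by
  -- bound on `|y n - Y n|`
  obtain ⟨K, hK⟩ : ∃ K, ∀ i, |y i| ≤ K := by
    obtain ⟨K, hK⟩ := (Set.finite_range fun i => |y i|).bddAbove
    exact ⟨K, fun i => hK ⟨i, rfl⟩⟩
  have hB0 : 0 ≤ B := (abs_nonneg _).trans (hB 0)
  have hK0 : 0 ≤ K := (abs_nonneg _).trans (hK 0)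
  have hB'0 : 0 ≤ B' := (abs_nonneg _).trans (hB' 0)
  have key : ∀ (j n : ℕ), 3 * j ≤ n → |y n - Y n| ≤ B + r ^ j * (K + B') := by
    intro j
    induction j with
    | zero =>
      intro n _
      have h1 : |y n - Y n| ≤ |y n| + |Y n| := abs_sub _ _
      have h2 := hK n
      have h3 := hB' n
      simp only [pow_zero, one_mul]
      linarith
    | succ j ih =>
      intro n hn
      obtain ⟨m, rfl⟩ : ∃ m, n = m + 3 := ⟨n - 3, by omega⟩
      have h1 := ih m (by omega)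
      have h2 := ih (m + 1) (by omega)
      have e1 := hy (m : ZMod k)
      have e2 : ((m + 3 : ℕ) : ZMod k) = (m : ZMod k) + 3 := by push_cast; ring
      have e3 : ((m + 1 : ℕ) : ZMod k) = (m : ZMod k) + 1 := by push_cast; ring
      have hg := hB (m + 3)
      rw [e2] at hg ⊢
      rw [e3] at h2
      have h3 := L_nonexp (hC m) h1 h2
      rw [e1, hY m]
      rw [hY m] at hg
      set A := L (C m) (y m) (y (m + 1))
      set A' := L (C m) (Y m) (Y (m + 1))
      have h4 : r * A + (1 - r) * g (m + 3) - A' = r * (A - A') + (1 - r) * (g (m + 3) - A') := by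
        ring
      rw [h4]
      calc |r * (A - A') + (1 - r) * (g (m + 3) - A')|
          ≤ |r * (A - A')| + |(1 - r) * (g (m + 3) - A')| := abs_add_le _ _
        _ = r * |A - A'| + (1 - r) * |g (m + 3) - A'| := by
            rw [abs_mul, abs_mul, abs_of_nonneg hr0, abs_of_nonneg (by linarith : 0 ≤ 1 - r)]
        _ ≤ r * (B + r ^ j * (K + B')) + (1 - r) * B := by
            have := mul_le_mul_of_nonneg_left h3 hr0
            have := mul_le_mul_of_nonneg_left hg (by linarith : 0 ≤ 1 - r)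
            linarith
        _ = B + r ^ (j + 1) * (K + B') := by ring
  have hlim : Tendsto (fun j : ℕ => B + B' + r ^ j * (K + B')) atTop (𝓝 (B + B' + 0 * (K + B'))) :=
    ((tendsto_pow_atTop_nhds_zero_of_lt_one hr0 hr1).mul_const _).const_add _
  have hle : ∀ j : ℕ, |y i| ≤ B + B' + r ^ j * (K + B') := by
    intro j
    have h1 := key j (i.val + 3 * j * k) (by
      have hk : 1 ≤ k := Nat.one_le_iff_ne_zero.mpr (NeZero.ne k)
      nlinarith)
    have e : ((i.val + 3 * j * k : ℕ) : ZMod k) = i := by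
      push_cast
      rw [ZMod.natCast_self, mul_zero, add_zero, ZMod.natCast_val, ZMod.cast_id]
    rw [e] at h1
    have h2 := hB' (i.val + 3 * j * k)
    have h3 : |y i| ≤ |y i - Y (i.val + 3 * j * k)| + |Y (i.val + 3 * j * k)| := by
      have := abs_add_le (y i - Y (i.val + 3 * j * k)) (Y (i.val + 3 * j * k))
      simpa using this
    linarith
  have := ge_of_tendsto' hlim hle
  simpa using this

/-- radii tending to `1` -/
noncomputable def rad (j : ℕ) : ℝ := 1 - 1 / ((j : ℝ) + 2)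

lemma rad_nonneg (j : ℕ) : 0 ≤ rad j := by
  unfold rad
  have : (0 : ℝ) < (j : ℝ) + 2 := by positivity
  rw [sub_nonneg, div_le_one this]
  linarith [Nat.cast_nonneg (α := ℝ) j]

lemma rad_pos (j : ℕ) : 0 < rad j := by
  unfold rad
  have : (0 : ℝ) < (j : ℝ) + 2 := by positivity
  rw [sub_pos, div_lt_one this]
  linarith [Nat.cast_nonneg (α := ℝ) j]

lemma rad_lt_one (j : ℕ) : rad j < 1 := by
  unfold rad
  have : (0 : ℝ) < (j : ℝ) + 2 := by positivity
  have := one_div_pos.mpr this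
  linarith

lemma rad_tendsto : Tendsto rad atTop (𝓝 1) := by
  have h : Tendsto (fun j : ℕ => 1 - 1 / ((j : ℝ) + 2)) atTop (𝓝 (1 - 0)) := by
    refine tendsto_const_nhds.sub ?_
    have := (tendsto_natCast_atTop_atTop (R := ℝ)).atTop_add (tendsto_const_nhds (x := (2 : ℝ)))
    exact this.const_div_atTop 1
  rw [sub_zero] at h
  exact h

/-- limit of approximate fixed points -/
lemma fix_of_tendsto {C : ZMod k → ℝ} (hC : ∀ i, 0 ≤ C i) {g : ZMod k → ℝ}
    {φ : ℕ → ℕ} (hφ : Tendsto φ atTop atTop) {y : ℕ → ZMod k → ℝ}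
    (hy : ∀ j, IsAFix C (rad j) g (y j)) {z : ZMod k → ℝ}
    (hz : Tendsto (fun j => y (φ j)) atTop (𝓝 z)) : IsFix C z := by
  intro i
  have hzi : ∀ i, Tendsto (fun j => y (φ j) i) atTop (𝓝 (z i)) := fun i =>
    (tendsto_pi_nhds.mp hz) i
  have hr : Tendsto (fun j => rad (φ j)) atTop (𝓝 1) := rad_tendsto.comp hφ
  have h1 : Tendsto (fun j => L (C i) (y (φ j) i) (y (φ j) (i + 1))) atTop
      (𝓝 (L (C i) (z i) (z (i + 1)))) :=
    ((L_continuous (hC i)).tendsto (z i, z (i + 1))).comp ((hzi i).prodMk_nhds (hzi (i + 1)))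
  have h2 : Tendsto (fun j => rad (φ j) * L (C i) (y (φ j) i) (y (φ j) (i + 1)) +
      (1 - rad (φ j)) * g (i + 3)) atTop (𝓝 (1 * L (C i) (z i) (z (i + 1)) + (1 - 1) * g (i + 3))) :=
    (hr.mul h1).add ((tendsto_const_nhds.sub hr).mul_const _)
  have h3 := hzi (i + 3)
  have h4 : (fun j => y (φ j) (i + 3)) = fun j => rad (φ j) * L (C i) (y (φ j) i) (y (φ j) (i + 1)) +
      (1 - rad (φ j)) * g (i + 3) := by
    funext j
    exact hy (φ j) i
  rw [h4] at h3
  have := tendsto_nhds_unique h3 h2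
  rw [this]; ring

/-- bounded approximate fixed points accumulate at a fixed point -/
lemma exists_subseq_fix {C : ZMod k → ℝ} (hC : ∀ i, 0 ≤ C i) {g : ZMod k → ℝ}
    {y : ℕ → ZMod k → ℝ} (hy : ∀ j, IsAFix C (rad j) g (y j)) {M : ℝ}
    {ψ : ℕ → ℕ} (hψ : StrictMono ψ)
    (hM : ∀ j i, |y (ψ j) i| ≤ M) :
    ∃ (z : ZMod k → ℝ) (φ : ℕ → ℕ), StrictMono φ ∧ IsFix C z ∧
      Tendsto (fun j => y (φ j)) atTop (𝓝 z) := by
  have hM0 : 0 ≤ M := (abs_nonneg _).trans (hM 0 0)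
  have hcomp : IsCompact (Metric.closedBall (0 : ZMod k → ℝ) M) := isCompact_closedBall _ _
  have hmem : ∀ j, y (ψ j) ∈ Metric.closedBall (0 : ZMod k → ℝ) M := by
    intro j
    rw [mem_closedBall_zero_iff, pi_norm_le_iff_of_nonneg hM0]
    intro i
    rw [Real.norm_eq_abs]
    exact hM j i
  obtain ⟨z, _, φ, hφ, hz⟩ := hcomp.tendsto_subseq hmem
  refine ⟨z, ψ ∘ φ, hψ.comp hφ, ?_, hz⟩
  exact fix_of_tendsto hC (hψ.comp hφ).tendsto_atTop hy hz

/-- A bounded (in log coordinates) solution gives a periodic one. -/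
lemma fix_of_bounded {C : ZMod k → ℝ} (hC : ∀ i, 0 ≤ C i) {Y : ℕ → ℝ}
    (hY : ∀ n : ℕ, Y (n + 3) = L (C n) (Y n) (Y (n + 1))) {B : ℝ} (hB : ∀ n, |Y n| ≤ B) :
    ∃ z : ZMod k → ℝ, IsFix C z := by
  choose y hy using fun j => exists_afix hC (rad_nonneg j) (rad_lt_one j) (0 : ZMod k → ℝ)
  obtain ⟨z, _, _, hz, _⟩ := exists_subseq_fix (M := B + B) hC hy (ψ := id) strictMono_id
    (fun j i => afix_bound hC (rad_nonneg j) (rad_lt_one j) (hy j) hY
      (fun n => by simpa using hB n) hB i)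
  exact ⟨z, hz⟩

end Pool.Agent.H33.Rec
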