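import Pool.Agent.H33.Rec.Unique
import Pool.Agent.H33.Rec.Defs

set_option autoImplicit false

/-! Strict weights from a periodic solution. -/

namespace Pool.Agent.H33.Rec

open Real Filter Topology

variable {k : ℕ} [NeZero k]

lemma weight_of_fix {C : ZMod k → ℝ} (hC : ∀ i, 0 ≤ C i) (h3 : NoClass3 C) {y : ZMod k → ℝ}
    (hy : IsFix C y) {ε : ZMod k → ℤ} (hε : IsSignPattern C ε) : ∃ v, IsWeight C ε v := by
  obtain ⟨B, hB⟩ : ∃ B, ∀ i, |y i| ≤ B := by
    obtain ⟨B, hB⟩ := (Set.finite_range fun i => |y i|).bddAbove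
    exact ⟨B, fun i => hB ⟨i, rfl⟩⟩
  have hB0 : 0 ≤ B := (abs_nonneg _).trans (hB 0)
  set R : ℝ := B + 1 with hR
  set g : ZMod k → ℝ := fun i => R * ε i with hg
  have habsε : ∀ i, |(ε i : ℝ)| = 1 := by
    intro i
    rcases (hε i).1 with h | h <;> rw [h] <;> norm_num
  choose w hw using fun j => exists_afix hC (rad_nonneg j) (rad_lt_one j) g
  have hbd : ∀ j i, |w j i| ≤ (R + B) + B := by
    intro j i
    refine afix_bound hC (rad_nonneg j) (rad_lt_one j) (hw j) (Y := fun n => y n) ?_ ?_ ?_ i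
    · intro n
      have := hy (n : ZMod k)
      push_cast
      exact this
    · intro n
      have h1 : |g n| = R := by
        simp only [hg]
        rw [abs_mul, habsε, mul_one, abs_of_nonneg (by linarith)]
      calc |g n - y n| ≤ |g n| + |y n| := abs_sub _ _
        _ ≤ R + B := by rw [h1]; linarith [hB n]
    · intro n; exact hB n
  obtain ⟨z, φ, hφ, hz, hlim⟩ := exists_subseq_fix hC hw (ψ := id) strictMono_id hbd
  have hzy : z = y := fix_unique hC h3 hz hy
  subst hzy
  have hev : ∀ᶠ j in atTop, ∀ i, |w (φ j) i - z i| < 1 := by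
    rw [eventually_all]
    intro i
    have h1 : Tendsto (fun j => w (φ j) i) atTop (𝓝 (z i)) := (tendsto_pi_nhds.mp hlim) i
    have h2 := (Metric.tendsto_nhds.mp h1) 1 one_pos
    filter_upwards [h2] with j hj
    rwa [Real.dist_eq] at hj
  obtain ⟨j, hj⟩ := hev.exists
  set r := rad (φ j) with hr
  set p := w (φ j) with hp
  have hr0 : 0 < r := rad_pos _
  have hr1 : r < 1 := rad_lt_one _
  have hpR : ∀ i, (ε i : ℝ) * p i < R := by
    intro i
    have h1 : (ε i : ℝ) * p i ≤ |p i| := by
      calc (ε i : ℝ) * p i ≤ |(ε i : ℝ) * p i| := le_abs_self _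
        _ = |p i| := by rw [abs_mul, habsε, one_mul]
    have h2 : |p i| ≤ |p i - z i| + |z i| := by
      have := abs_add_le (p i - z i) (z i); simpa using this
    have h3 := hj i
    have h4 := hB i
    linarith
  -- key strict inequality
  have hkey : ∀ i, (ε (i + 3) : ℝ) * L (C i) (p i) (p (i + 1)) < (ε (i + 3) : ℝ) * p (i + 3) := by
    intro i
    have h1 := hw (φ j) i
    rw [← hr, ← hp] at h1
    have h2 := hpR (i + 3)
    have h3 : (ε (i + 3) : ℝ) * p (i + 3) =
        r * ((ε (i + 3) : ℝ) * L (C i) (p i) (p (i + 1))) + (1 - r) * R := by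
      rw [h1]
      simp only [hg]
      have : (ε (i + 3) : ℝ) * (ε (i + 3) : ℝ) = 1 := by
        rcases (hε (i + 3)).1 with h | h <;> rw [h] <;> norm_num
      linear_combination ((1 - r) * R) * this
    have h4 : r * ((ε (i + 3) : ℝ) * L (C i) (p i) (p (i + 1))) <
        r * ((ε (i + 3) : ℝ) * p (i + 3)) := by
      have : (1 - r) * ((ε (i + 3) : ℝ) * p (i + 3)) < (1 - r) * R :=
        mul_lt_mul_of_pos_left h2 (by linarith)
      linarith
    exact lt_of_mul_lt_mul_left h4 hr0.le
  refine ⟨fun i => exp ((ε i : ℝ) * p i), fun i => ⟨exp_pos _, ?_, ?_⟩⟩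
  · intro h
    have hk := hkey i
    have hp3 := (hε i).2
    rw [h] at hp3
    simp only [h, Int.cast_one, one_mul] at hk ⊢
    refine lt_of_eq_of_lt ?_ (exp_lt_exp.mpr hk)
    rw [exp_L (hC i)]
    congr 1
    by_cases hc : C i = 0
    · rw [if_pos hc] at hp3
      have : ε i = -1 := by omega
      simp [hc, this, exp_neg]
    · rw [if_neg hc] at hp3
      have h5 : max (ε i) (ε (i + 1)) = -1 := by omega
      have h6 : ε i = -1 := by
        have := le_max_left (ε i) (ε (i + 1))
        rcases (hε i).1 with h | h <;> omega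
      have h7 : ε (i + 1) = -1 := by
        have := le_max_right (ε i) (ε (i + 1))
        rcases (hε (i + 1)).1 with h | h <;> omega
      simp [h6, h7, exp_neg, div_eq_mul_inv]
  · intro h
    have hk := hkey i
    simp only [h, Int.cast_neg, Int.cast_one, neg_mul, one_mul] at hk ⊢
    refine lt_of_le_of_lt ?_ (exp_lt_exp.mpr hk)
    rw [exp_neg_L (hC i)]
    refine add_le_add ?_ ?_
    · split_ifs with h1
      · rw [h1]; simp
      · exact mul_nonneg (hC i) (exp_pos _).le
    · split_ifs with h1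
      · rw [h1]; simp
      · exact (exp_pos _).le

end Pool.Agent.H33.Rec
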