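import Pool.Agent.H33.Rec.Six
import Pool.Agent.H33.Rec.Blow
import Pool.Agent.H33.Rec.Weight

set_option autoImplicit false

/-! The criterion. -/

namespace Pool.Agent.H33.Rec

open Real Filter Topology

variable {k : ℕ} [NeZero k]

lemma pos_of_isPosSol {C : ZMod k → ℝ} (hC : ∀ i, 0 ≤ C i) {x : ℕ → ℝ} (hx : IsPosSol C x) :
    ∀ n, 0 < x n := by
  obtain ⟨h0, h1, h2, hr⟩ := hx
  intro n
  induction n using Nat.strong_induction_on with
  | _ n ih =>
    rcases n with _ | _ | _ | n
    · exact h0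
    · exact h1
    · exact h2
    · have a1 := ih n (by omega)
      have a2 := ih (n + 1) (by omega)
      rw [hr]
      have := hC (n : ZMod k)
      positivity

lemma log_rec {C : ZMod k → ℝ} (hC : ∀ i, 0 ≤ C i) {x : ℕ → ℝ} (hx : IsPosSol C x) (n : ℕ) :
    Real.log (x (n + 3)) = L (C n) (Real.log (x n)) (Real.log (x (n + 1))) := by
  have hp := pos_of_isPosSol hC hx
  unfold L
  rw [Real.exp_log (hp _), Real.exp_log (hp _), hx.2.2.2, one_div, Real.log_inv]

lemma fix_of_allBounded {C : ZMod k → ℝ} (hC : ∀ i, 0 ≤ C i) (h : AllBounded C) :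
    ∃ y : ZMod k → ℝ, IsFix C y := by
  have hx : IsPosSol C (sol C) := by
    refine ⟨?_, ?_, ?_, sol_rec C⟩ <;> simp [sol]
  obtain ⟨M, hM⟩ := h _ hx
  have hp := pos_of_isPosSol hC hx
  obtain ⟨Cmax, hCmax⟩ : ∃ M, ∀ i, C i ≤ M := by
    obtain ⟨B, hB⟩ := (Set.finite_range C).bddAbove
    exact ⟨B, fun i => hB ⟨i, rfl⟩⟩
  have hCmax0 : 0 ≤ Cmax := (hC 0).trans (hCmax 0)
  have hM1 : 0 < M := (hp 0).trans_le (hM 0)
  set b := min 1 (1 / (Cmax * M + M)) with hb
  have hsum : 0 < Cmax * M + M := by positivity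
  have hbpos : 0 < b := lt_min one_pos (one_div_pos.mpr hsum)
  have hlow : ∀ n, b ≤ sol C n := by
    intro n
    rcases n with _ | _ | _ | n
    · exact (min_le_left _ _).trans (by simp [sol])
    · exact (min_le_left _ _).trans (by simp [sol])
    · exact (min_le_left _ _).trans (by simp [sol])
    · refine (min_le_right _ _).trans ?_
      rw [sol_rec]
      have h1 := hp n
      have h2 := hp (n + 1)
      have h3 := hC (n : ZMod k)
      refine one_div_le_one_div_of_le (by positivity) (add_le_add ?_ (hM n))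
      exact mul_le_mul (hCmax _) (hM _) h2.le hCmax0
  refine fix_of_bounded hC (Y := fun n => Real.log (sol C n)) (B := max |Real.log b| |Real.log M|)
    (fun n => log_rec hC hx n) fun n => ?_
  show |Real.log (sol C n)| ≤ _
  have hlo := Real.log_le_log hbpos (hlow n)
  have hup := Real.log_le_log (hp n) (hM n)
  rw [abs_le]
  constructor
  · have := neg_abs_le (Real.log b)
    have := le_max_left |Real.log b| |Real.log M|
    linarith
  · have := le_abs_self (Real.log M)
    have := le_max_right |Real.log b| |Real.log M|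
    linarith

lemma allBounded_of_fix {C : ZMod k → ℝ} (hC : ∀ i, 0 ≤ C i) {y : ZMod k → ℝ} (hy : IsFix C y) :
    AllBounded C := by
  intro x hx
  have hp := pos_of_isPosSol hC hx
  set D := max |Real.log (x 0) - y 0| (max |Real.log (x 1) - y 1| |Real.log (x 2) - y 2|) with hD
  have hcmp : ∀ n : ℕ, |Real.log (x n) - y n| ≤ D := by
    intro n
    induction n using Nat.strong_induction_on with
    | _ n ih =>
      rcases n with _ | _ | _ | n
      · simp [hD]
      · simp [hD]
      · simp [hD]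
      · have a1 := ih n (by omega)
        have a2 := ih (n + 1) (by omega)
        have e1 : ((n + 3 : ℕ) : ZMod k) = (n : ZMod k) + 3 := by push_cast; ring
        have e2 : ((n + 1 : ℕ) : ZMod k) = (n : ZMod k) + 1 := by push_cast; ring
        rw [log_rec hC hx n]
        show |_ - y ((n + 3 : ℕ) : ZMod k)| ≤ D
        rw [e1, hy]
        rw [e2] at a2
        exact L_nonexp (hC _) a1 a2
  obtain ⟨B, hB⟩ : ∃ B, ∀ i, y i ≤ B := by
    obtain ⟨B, hB⟩ := (Set.finite_range y).bddAbove
    exact ⟨B, fun i => hB ⟨i, rfl⟩⟩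
  refine ⟨exp (D + B), fun n => ?_⟩
  rw [← Real.exp_log (hp n)]
  apply exp_le_exp.mpr
  have h1 := hcmp n
  rw [abs_le] at h1
  linarith [hB n]

theorem allBounded_iff {C : ZMod k → ℝ} (hC : ∀ i, 0 ≤ C i) :
    AllBounded C ↔ Six C ∧
      (¬ NoClass3 C ∨ ∀ ε, IsSignPattern C ε → ∃ v, IsWeight C ε v) := by
  constructor
  · intro h
    obtain ⟨y, hy⟩ := fix_of_allBounded hC h
    refine ⟨six_of_fix hC hy, ?_⟩
    by_cases h3 : NoClass3 C
    · right
      intro ε hε
      exact weight_of_fix hC h3 hy hε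
    · left; exact h3
  · rintro ⟨h6, h | h⟩
    · obtain ⟨y, hy⟩ := fix_of_class3 hC h6 h
      exact allBounded_of_fix hC hy
    · obtain ⟨y, hy⟩ := fix_of_weights hC h
      exact allBounded_of_fix hC hy

end Pool.Agent.H33.Rec
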