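import Pool.Agent.H33.Rec.Walk

set_option autoImplicit false

/-! Positive coefficients: only the period `5` pattern matters. -/

namespace Pool.Agent.H33.Rec

/-- the pattern `-,+,+,-,-` -/
def pat (s : ZMod 5) : ℤ := if s = 1 ∨ s = 2 then 1 else -1

lemma pat_rule : ∀ s : ZMod 5, pat (s + 3) = (if s = 0 then -max (pat s) (pat (s + 1)) else -pat s) ∧
    pat (s + 3) = -max (pat s) (pat (s + 1)) := by decide

lemma pat_vals : ∀ s : ZMod 5, pat s = 1 ∨ pat s = -1 := by decide

/-- one block: from weights to the pair inequalities -/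
lemma block_of_weights {a b c d v1 v2 v3 v4 v5 v6 v7 : ℝ} (hb : 0 ≤ b) (hc : 0 ≤ c)
    (hd : 0 ≤ d) (ha : 0 < a) (h1 : 0 < v1) (h2 : 0 < v2) (e3 : a * v1 < v3)
    (e4 : b * v2 + v1 < v4) (e5 : v2 < v5) (e6 : 1 / (c / v4 + 1 / v3) < v6)
    (e7 : 1 / (d / v5 + 1 / v4) < v7) :
    1 / (c / (b * v2 + v1) + 1 / (a * v1)) < v6 ∧ 1 / (d / v2 + 1 / (b * v2 + v1)) < v7 := by
  have h3 : 0 < a * v1 := mul_pos ha h1
  have h4 : 0 < b * v2 + v1 := by positivity
  have h3' : 0 < v3 := h3.trans e3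
  have h4' : 0 < v4 := h4.trans e4
  have h5' : 0 < v5 := h2.trans e5
  constructor
  · refine lt_of_le_of_lt ?_ e6
    refine one_div_le_one_div_of_le (by positivity) (add_le_add ?_ ?_)
    · exact div_le_div_of_nonneg_left hc h4 e4.le
    · exact one_div_le_one_div_of_le h3 e3.le
  · refine lt_of_le_of_lt ?_ e7
    refine one_div_le_one_div_of_le (by positivity) (add_le_add ?_ ?_)
    · exact div_le_div_of_nonneg_left hd h2 e5.le
    · exact one_div_le_one_div_of_le h4 e4.le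

variable {k : ℕ} [NeZero k]

lemma mod5_cases : ∀ s : ZMod 5, s = 0 ∨ s = 1 ∨ s = 2 ∨ s = 3 ∨ s = 4 := by decide

omit [NeZero k] in
lemma shift_add {s : ZMod k → ZMod 5} (hs : ∀ i, s (i + 1) = s i + 1) (i : ZMod k) :
    s (i + 2) = s i + 2 ∧ s (i + 3) = s i + 3 ∧ s (i + 4) = s i + 4 ∧ s (i + 5) = s i := by
  have e2 : s (i + 2) = s i + 2 := by
    have : i + 2 = i + 1 + 1 := by ring
    rw [this, hs, hs]; ring
  have e3 : s (i + 3) = s i + 3 := by
    have : i + 3 = i + 2 + 1 := by ring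
    rw [this, hs, e2]; ring
  have e4 : s (i + 4) = s i + 4 := by
    have : i + 4 = i + 3 + 1 := by ring
    rw [this, hs, e3]; ring
  refine ⟨e2, e3, e4, ?_⟩
  have : i + 5 = i + 4 + 1 := by ring
  rw [this, hs, e4, add_assoc]
  have : (4 : ZMod 5) + 1 = 0 := by decide
  rw [this, add_zero]

omit [NeZero k] in
lemma pattern_of_class {C : ZMod k → ℝ} {s : ZMod k → ZMod 5} (hs : ∀ i, s (i + 1) = s i + 1)
    (hC : ∀ i, s i = 0 → C i ≠ 0) : IsSignPattern C (fun i => pat (s i)) := by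
  intro i
  refine ⟨pat_vals _, ?_⟩
  show pat (s (i + 3)) = if C i = 0 then -pat (s i) else -max (pat (s i)) (pat (s (i + 1)))
  rw [(shift_add hs i).2.1, hs]
  split_ifs with h
  · have h0 : s i ≠ 0 := fun h0 => hC i h0 h
    rw [(pat_rule (s i)).1, if_neg h0]
  · exact (pat_rule (s i)).2

/-- the pair inequalities -/
def Pair (C : ZMod k → ℝ) (X Y : ZMod k → ℝ) (i : ZMod k) : Prop :=
  0 < X i ∧ 0 < Y i ∧
    1 / (C (i + 3) / (C (i + 1) * Y i + X i) + 1 / (C i * X i)) < X (i + 5) ∧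
    1 / (C (i + 4) / Y i + 1 / (C (i + 1) * Y i + X i)) < Y (i + 5)

omit [NeZero k] in
lemma pair_of_weight {C : ZMod k → ℝ} (hC : ∀ i, 0 ≤ C i) {s : ZMod k → ZMod 5}
    (hs : ∀ i, s (i + 1) = s i + 1) {v : ZMod k → ℝ} (hv : IsWeight C (fun i => pat (s i)) v)
    {i : ZMod k} (hi : s i = 0) (hCi : 0 < C i) :
    Pair C (fun i => v (i + 1)) (fun i => v (i + 2)) i := by
  obtain ⟨s2, s3, s4, s5⟩ := shift_add hs i
  have s1 := hs i
  rw [hi] at s1 s2 s3 s4 s5
  norm_num at s1 s2 s3 s4 s5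
  have p0 : pat (s i) = -1 := by rw [hi]; decide
  have p1 : pat (s (i + 1)) = 1 := by rw [s1]; decide
  have p2 : pat (s (i + 2)) = 1 := by rw [s2]; decide
  have p3 : pat (s (i + 3)) = -1 := by rw [s3]; decide
  have p4 : pat (s (i + 4)) = -1 := by rw [s4]; decide
  have p5 : pat (s (i + 5)) = -1 := by rw [s5]; decide
  have s6 : s (i + 6) = 1 := by
    have : i + 6 = i + 5 + 1 := by ring
    rw [this, hs, s5]; decide
  have s7 : s (i + 7) = 2 := by
    have : i + 7 = i + 6 + 1 := by ring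
    rw [this, hs, s6]; decide
  have p6 : pat (s (i + 6)) = 1 := by rw [s6]; decide
  have p7 : pat (s (i + 7)) = 1 := by rw [s7]; decide
  have q3 := (hv i).2.2 p3
  have a1 : i + 1 + 3 = i + 4 := by ring
  have a1' : i + 1 + 1 = i + 2 := by ring
  have a2 : i + 2 + 3 = i + 5 := by ring
  have a2' : i + 2 + 1 = i + 3 := by ring
  have a3 : i + 3 + 3 = i + 6 := by ring
  have a3' : i + 3 + 1 = i + 4 := by ring
  have a4 : i + 4 + 3 = i + 7 := by ring
  have a4' : i + 4 + 1 = i + 5 := by ring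
  have q4 := (hv (i + 1)).2.2
  have q5 := (hv (i + 2)).2.2
  have q6 := (hv (i + 3)).2.1
  have q7 := (hv (i + 4)).2.1
  simp only [a1, a1', a2, a2', a3, a3', a4, a4'] at q3 q4 q5 q6 q7
  have q4 := q4 p4
  have q5 := q5 p5
  have q6 := q6 p6
  have q7 := q7 p7
  simp only [p0, p1, p2, p3] at q3 q4 q5
  norm_num at q3 q4 q5
  have hblock := block_of_weights (a := C i) (b := C (i + 1)) (c := C (i + 3)) (d := C (i + 4))
    (hC _) (hC _) (hC _) hCi (hv (i + 1)).1 (hv (i + 2)).1 q3 q4 q5 q6 q7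
  have b1 : i + 5 + 1 = i + 6 := by ring
  have b2 : i + 5 + 2 = i + 7 := by ring
  refine ⟨(hv _).1, (hv _).1, ?_, ?_⟩
  · simp only [b1]; exact hblock.1
  · simp only [b2]; exact hblock.2

open Filter Topology in
lemma weight_of_pair {C : ZMod k → ℝ} (hC : ∀ i, 0 ≤ C i) {s : ZMod k → ZMod 5}
    (hs : ∀ i, s (i + 1) = s i + 1) (hC0 : ∀ i, s i = 0 → 0 < C i) {X Y : ZMod k → ℝ}
    (hXY : ∀ i, s i = 0 → Pair C X Y i) : ∃ v, IsWeight C (fun i => pat (s i)) v := by
  -- the slack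
  set RX : ZMod k → ℝ := fun i => 1 / (C (i + 3) / (C (i + 1) * Y i + X i) + 1 / (C i * X i))
    with hRX
  set RY : ZMod k → ℝ := fun i => 1 / (C (i + 4) / Y i + 1 / (C (i + 1) * Y i + X i)) with hRY
  obtain ⟨t, ht, ht1⟩ : ∃ t : ℝ, 1 < t ∧ ∀ i, s i = 0 → t * RX i < X (i + 5) ∧
      t * RY i < Y (i + 5) := by
    have hev : ∀ᶠ t in 𝓝[>] (1 : ℝ), ∀ i, s i = 0 → t * RX i < X (i + 5) ∧
        t * RY i < Y (i + 5) := by
      rw [eventually_all]
      intro i
      by_cases hi : s i = 0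
      · obtain ⟨-, -, h1, h2⟩ := hXY i hi
        have c1 : ContinuousAt (fun t : ℝ => t * RX i) 1 := by fun_prop
        have c2 : ContinuousAt (fun t : ℝ => t * RY i) 1 := by fun_prop
        have d1 : ∀ᶠ t in 𝓝 (1 : ℝ), t * RX i < X (i + 5) :=
          c1.eventually_lt_const (by beta_reduce; rw [one_mul]; exact h1)
        have d2 : ∀ᶠ t in 𝓝 (1 : ℝ), t * RY i < Y (i + 5) :=
          c2.eventually_lt_const (by beta_reduce; rw [one_mul]; exact h2)
        filter_upwards [nhdsWithin_le_nhds d1, nhdsWithin_le_nhds d2] with t h1 h2 _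
        exact ⟨h1, h2⟩
      · exact Eventually.of_forall fun t h => absurd h hi
    obtain ⟨t, h1, h2⟩ := (hev.and self_mem_nhdsWithin).exists
    exact ⟨t, h2, h1⟩
  have ht0 : 0 < t := by linarith
  set v : ZMod k → ℝ := fun i =>
    if s i = 1 then X (i - 1) else if s i = 2 then Y (i - 2)
    else if s i = 3 then t * (C (i - 3) * X (i - 3))
    else if s i = 4 then t * (C (i - 3) * Y (i - 4) + X (i - 4))
    else t * Y (i - 5) with hv
  have d10 : (1 : ZMod 5) ≠ 0 := by decide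
  have v1 : ∀ i, s i = 1 → v i = X (i - 1) := fun i h => by simp only [hv, if_pos h]
  have v2 : ∀ i, s i = 2 → v i = Y (i - 2) := fun i h => by
    simp only [hv]
    rw [if_neg (by rw [h]; decide), if_pos h]
  have v3 : ∀ i, s i = 3 → v i = t * (C (i - 3) * X (i - 3)) := fun i h => by
    simp only [hv]
    rw [if_neg (by rw [h]; decide), if_neg (by rw [h]; decide), if_pos h]
  have v4 : ∀ i, s i = 4 → v i = t * (C (i - 3) * Y (i - 4) + X (i - 4)) := fun i h => by
    simp only [hv]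
    rw [if_neg (by rw [h]; decide), if_neg (by rw [h]; decide), if_neg (by rw [h]; decide),
      if_pos h]
  have v0 : ∀ i, s i = 0 → v i = t * Y (i - 5) := fun i h => by
    simp only [hv]
    rw [if_neg (by rw [h]; decide), if_neg (by rw [h]; decide), if_neg (by rw [h]; decide),
      if_neg (by rw [h]; decide)]
  -- positions
  have key : ∀ i, ∃ j, (s j = 0) ∧ (i = j ∨ i = j + 1 ∨ i = j + 2 ∨ i = j + 3 ∨ i = j + 4) := by
    intro i
    have hsm : ∀ j, s j = s (j - 1) + 1 := fun j => by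
      have := hs (j - 1); rwa [sub_add_cancel] at this
    rcases mod5_cases (s i) with h | h | h | h | h
    · exact ⟨i, h, Or.inl rfl⟩
    · refine ⟨i - 1, ?_, Or.inr (Or.inl (by ring))⟩
      have := hsm i; rw [h] at this
      have h2 : s (i - 1) = 1 - 1 := by rw [eq_sub_iff_add_eq, ← this]
      rw [h2]; decide
    · refine ⟨i - 2, ?_, Or.inr (Or.inr (Or.inl (by ring)))⟩
      have e := (shift_add hs (i - 2)).1
      rw [sub_add_cancel, h] at e
      have h2 : s (i - 2) = 2 - 2 := by rw [eq_sub_iff_add_eq, ← e]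
      rw [h2]; decide
    · refine ⟨i - 3, ?_, Or.inr (Or.inr (Or.inr (Or.inl (by ring))))⟩
      have e := (shift_add hs (i - 3)).2.1
      rw [sub_add_cancel, h] at e
      have h2 : s (i - 3) = 3 - 3 := by rw [eq_sub_iff_add_eq, ← e]
      rw [h2]; decide
    · refine ⟨i - 4, ?_, Or.inr (Or.inr (Or.inr (Or.inr (by ring))))⟩
      have e := (shift_add hs (i - 4)).2.2.1
      rw [sub_add_cancel, h] at e
      have h2 : s (i - 4) = 4 - 4 := by rw [eq_sub_iff_add_eq, ← e]
      rw [h2]; decide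
  refine ⟨v, fun i => ?_⟩
  obtain ⟨j, hj, hcase⟩ := key i
  obtain ⟨s2, s3, s4, s5⟩ := shift_add hs j
  have s1 := hs j
  rw [hj] at s1 s2 s3 s4 s5
  norm_num at s1 s2 s3 s4 s5
  have s6 : s (j + 6) = 1 := by
    have : j + 6 = j + 5 + 1 := by ring
    rw [this, hs, s5]; decide
  have s7 : s (j + 7) = 2 := by
    have : j + 7 = j + 6 + 1 := by ring
    rw [this, hs, s6]; decide
  obtain ⟨t1, t2⟩ := ht1 j hj
  obtain ⟨hX, hY, -, -⟩ := hXY j hj
  have hj5 := hXY (j + 5) s5
  have hjm5 : s (j - 5) = 0 := by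
    have e := (shift_add hs (j - 5)).2.2.2
    rw [sub_add_cancel] at e
    rw [← e, hj]
  have hYm := (hXY (j - 5) hjm5).2.1
  have hCj := hC0 j hj
  have w0 : v j = t * Y (j - 5) := v0 j hj
  have w1 : v (j + 1) = X j := by rw [v1 _ s1]; congr 1; ring
  have w2 : v (j + 2) = Y j := by rw [v2 _ s2]; congr 1; ring
  have w3 : v (j + 3) = t * (C j * X j) := by
    rw [v3 _ s3]
    have : j + 3 - 3 = j := by ring
    rw [this]
  have w4 : v (j + 4) = t * (C (j + 1) * Y j + X j) := by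
    rw [v4 _ s4]
    have e1 : j + 4 - 3 = j + 1 := by ring
    have e2 : j + 4 - 4 = j := by ring
    rw [e1, e2]
  have w5 : v (j + 5) = t * Y j := by
    rw [v0 _ s5]
    have e2 : j + 5 - 5 = j := by ring
    rw [e2]
  have w6 : v (j + 6) = X (j + 5) := by rw [v1 _ s6]; congr 1; ring
  have w7 : v (j + 7) = Y (j + 5) := by rw [v2 _ s7]; congr 1; ring
  have p0 : pat (s j) = -1 := by rw [hj]; decide
  have p1 : pat (s (j + 1)) = 1 := by rw [s1]; decide
  have p2 : pat (s (j + 2)) = 1 := by rw [s2]; decide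
  have p3 : pat (s (j + 3)) = -1 := by rw [s3]; decide
  have p4 : pat (s (j + 4)) = -1 := by rw [s4]; decide
  have p5 : pat (s (j + 5)) = -1 := by rw [s5]; decide
  have p6 : pat (s (j + 6)) = 1 := by rw [s6]; decide
  have p7 : pat (s (j + 7)) = 1 := by rw [s7]; decide
  have hS : 0 < C (j + 1) * Y j + X j := by
    have := hC (j + 1); positivity
  have hCX : 0 < C j * X j := mul_pos hCj hX
  rcases hcase with h | h | h | h | h
  · subst h
    refine ⟨by rw [w0]; positivity, fun h => ?_, fun _ => ?_⟩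
    · simp only [p3] at h; norm_num at h
    · simp only [p0, p1, w1, w3]
      norm_num
      nlinarith
  · subst h
    have e1 : j + 1 + 3 = j + 4 := by ring
    have e2 : j + 1 + 1 = j + 2 := by ring
    simp only [e1, e2]
    refine ⟨by rw [w1]; exact hX, fun h => ?_, fun _ => ?_⟩
    · rw [p4] at h; norm_num at h
    · simp only [p1, p2, w1, w2, w4]
      norm_num
      nlinarith
  · subst h
    have e1 : j + 2 + 3 = j + 5 := by ring
    have e2 : j + 2 + 1 = j + 3 := by ring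
    simp only [e1, e2]
    refine ⟨by rw [w2]; exact hY, fun h => ?_, fun _ => ?_⟩
    · rw [p5] at h; norm_num at h
    · simp only [p2, p3, w2, w3, w5]
      norm_num
      nlinarith
  · subst h
    have e1 : j + 3 + 3 = j + 6 := by ring
    have e2 : j + 3 + 1 = j + 4 := by ring
    simp only [e1, e2]
    refine ⟨by rw [w3]; positivity, fun _ => ?_, fun h => ?_⟩
    · simp only [w3, w4, w6]
      refine lt_of_le_of_lt (le_of_eq ?_) t1
      simp only [hRX]
      field_simp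
    · rw [p6] at h; norm_num at h
  · subst h
    have e1 : j + 4 + 3 = j + 7 := by ring
    have e2 : j + 4 + 1 = j + 5 := by ring
    simp only [e1, e2]
    refine ⟨by rw [w4]; positivity, fun _ => ?_, fun h => ?_⟩
    · simp only [w4, w5, w7]
      refine lt_of_le_of_lt (le_of_eq ?_) t2
      simp only [hRY]
      field_simp
    · rw [p7] at h; norm_num at h

lemma tt_five_all {e : ℕ → ℤ} {c : ℕ → ℝ} (h : Rule e c) {n0 : ℕ} (h0 : TT e n0)
    (hall : ∀ t : ℕ, c (n0 + 5 * t) ≠ 0) (t : ℕ) : TT e (n0 + 5 * t) := by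
  induction t with
  | zero => simpa using h0
  | succ t ih =>
    have := (tt_next_five h ih (hall t)).1
    have e1 : n0 + 5 * (t + 1) = n0 + 5 * t + 5 := by ring
    rw [e1]; exact this

lemma pattern_eq_pat {C : ZMod k → ℝ} {ε : ZMod k → ℤ} (hε : IsSignPattern C ε) (h5 : 5 ∣ k)
    {n0 : ℕ} (h0 : TT (fun n : ℕ => ε n) n0) (hall : ∀ t : ℕ, C ((n0 + 5 * t : ℕ) : ZMod k) ≠ 0)
    (i : ZMod k) : ε i = pat (ZMod.castHom h5 (ZMod 5) i - (n0 : ZMod 5)) := by
  have hrule := rule_of_pattern hε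
  set m := (i - (n0 : ZMod k)).val with hm
  have hi : i = ((n0 + m : ℕ) : ZMod k) := by
    push_cast
    rw [hm, ZMod.natCast_val, ZMod.cast_id]; ring
  have hs : ZMod.castHom h5 (ZMod 5) i - (n0 : ZMod 5) = (m : ZMod 5) := by
    rw [hi, map_natCast]; push_cast; ring
  rw [hs]
  have hm5 : ((m : ℕ) : ZMod 5) = ((m % 5 : ℕ) : ZMod 5) := (ZMod.natCast_mod m 5).symm
  rw [hm5]
  have hTT := tt_five_all hrule h0 hall (m / 5)
  obtain ⟨-, -, -, -, -, b3, b4⟩ := tt_next_five hrule hTT (hall (m / 5))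
  obtain ⟨b0, b1, b2⟩ := hTT
  have hmm : n0 + m = n0 + 5 * (m / 5) + m % 5 := by omega
  have hval : ε i = ε ((n0 + 5 * (m / 5) + m % 5 : ℕ) : ZMod k) := by rw [hi, hmm]
  rw [hval]
  have hlt : m % 5 < 5 := Nat.mod_lt _ (by norm_num)
  have hcase : m % 5 = 0 ∨ m % 5 = 1 ∨ m % 5 = 2 ∨ m % 5 = 3 ∨ m % 5 = 4 := by omega
  rcases hcase with h | h | h | h | h <;> rw [h]
  · exact b0
  · exact b1
  · exact b2
  · exact b3
  · exact b4

lemma walk_all_five {c : ℕ → ℝ} (hc : ∀ n, c n ≠ 0) (n0 j : ℕ) : walk c n0 j = n0 + 5 * j := by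
  induction j with
  | zero => simp [walk]
  | succ j ih => rw [walk, if_neg (hc _), ih]; ring

omit [NeZero k] in
lemma tt_add_k {ε : ZMod k → ℤ} {n0 : ℕ} (hn0 : TT (fun n : ℕ => ε n) n0) :
    TT (fun n : ℕ => ε n) (n0 + k) := by
  obtain ⟨a0, a1, a2⟩ := hn0
  refine ⟨?_, ?_, ?_⟩
  · have e1 : ((n0 + k : ℕ) : ZMod k) = n0 := by push_cast; rw [ZMod.natCast_self, add_zero]
    show ε ((n0 + k : ℕ) : ZMod k) = -1
    rw [e1]; exact a0
  · have e1 : ((n0 + k + 1 : ℕ) : ZMod k) = ((n0 + 1 : ℕ) : ZMod k) := by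
      push_cast; rw [ZMod.natCast_self, add_zero]
    show ε ((n0 + k + 1 : ℕ) : ZMod k) = 1
    rw [e1]; exact a1
  · have e1 : ((n0 + k + 2 : ℕ) : ZMod k) = ((n0 + 2 : ℕ) : ZMod k) := by
      push_cast; rw [ZMod.natCast_self, add_zero]
    show ε ((n0 + k + 2 : ℕ) : ZMod k) = 1
    rw [e1]; exact a2

/-- positive coefficients -/
theorem allBounded_iff_pos {C : ZMod k → ℝ} (hC : ∀ i, 0 < C i) :
    AllBounded C ↔ (¬ 5 ∣ k ∨ ∃ X Y : ZMod k → ℝ, ∀ i, Pair C X Y i) := by
  have hC0 : ∀ i, 0 ≤ C i := fun i => (hC i).le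
  have hN3 : NoClass3 C := fun i => ⟨0, (hC _).ne'⟩
  have h6 : Six C := fun i hi => absurd (hi 0) (hC _).ne'
  rw [allBounded_iff hC0]
  constructor
  · rintro ⟨-, h | h⟩
    · exact absurd hN3 h
    · by_cases h5 : 5 ∣ k
      · right
        set φ := ZMod.castHom h5 (ZMod 5) with hφ
        have hs : ∀ c : ZMod 5, ∀ i, (φ (i + 1) - c) = (φ i - c) + 1 := by
          intro c i
          rw [map_add, map_one]; ring
        choose v hv using fun c : ZMod 5 => h _ (pattern_of_class (C := C) (s := fun i => φ i - c)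
          (hs c) fun i _ => (hC i).ne')
        refine ⟨fun i => v (φ i) (i + 1), fun i => v (φ i) (i + 2), fun i => ?_⟩
        have h1 := pair_of_weight hC0 (hs (φ i)) (hv (φ i)) (i := i) (sub_self _) (hC i)
        have e5 : φ (i + 5) = φ i := by
          rw [map_add]
          have : φ (5 : ZMod k) = 0 := by
            have h6 : φ (5 : ZMod k) = 5 := map_ofNat φ 5
            rw [h6]; decide
          rw [this, add_zero]
        unfold Pair at h1 ⊢
        simp only [e5]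
        exact h1
      · left; exact h5
  · intro h
    refine ⟨h6, Or.inr fun ε hε => ?_⟩
    have hrule := rule_of_pattern hε
    rcases exists_tt_or hrule with ⟨n0, hn0⟩ | ⟨n, hn⟩
    · obtain ⟨j, hj⟩ := walk_surj hrule hn0 (by omega) (tt_add_k hn0)
      rw [walk_all_five (fun n => (hC n).ne')] at hj
      have h5 : 5 ∣ k := ⟨j, by omega⟩
      rcases h with h | ⟨X, Y, hXY⟩
      · exact absurd h5 h
      · have hpat := pattern_eq_pat hε h5 hn0 (fun t => (hC _).ne')
        have hs : ∀ i, (ZMod.castHom h5 (ZMod 5) (i + 1) - (n0 : ZMod 5)) =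
            (ZMod.castHom h5 (ZMod 5) i - (n0 : ZMod 5)) + 1 := by
          intro i
          rw [map_add, map_one]; ring
        obtain ⟨v, hv⟩ := weight_of_pair
          (s := fun i => ZMod.castHom h5 (ZMod 5) i - (n0 : ZMod 5)) hC0 hs
          (fun i _ => hC i) (X := X) (Y := Y) (fun i _ => hXY i)
        refine ⟨v, ?_⟩
        have hfun : ε = fun i => pat (ZMod.castHom h5 (ZMod 5) i - (n0 : ZMod 5)) := funext hpat
        rw [hfun]
        exact hv
    · exact absurd (hn 0) (hC _).ne'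

end Pool.Agent.H33.Rec
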