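import Pool.Agent.H33.Rec.Unique
import Pool.Agent.H33.Rec.Defs

set_option autoImplicit false

/-! Residue classes modulo `6` and modulo `3`. -/

namespace Pool.Agent.H33.Rec

open Real Filter Topology

variable {k : ℕ} [NeZero k]

/-- the six condition -/
def Six (C : ZMod k → ℝ) : Prop :=
  ∀ i : ZMod k, (∀ j : ℕ, C (i + 6 * j) = 0) → ∀ j : ℕ, C (i + 3 + 6 * j) = 0

lemma six_of_fix {C : ZMod k → ℝ} (hC : ∀ i, 0 ≤ C i) {y : ZMod k → ℝ} (hy : IsFix C y) :
    Six C := by
  intro s hs
  set a : ℕ → ℝ := fun j => exp (y (s + 3 + 6 * j)) with ha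
  have hstep : ∀ j : ℕ, a (j + 1) = C (s + 3 + 6 * j) * exp (y (s + 3 + 6 * j + 1)) + a j := by
    intro j
    simp only [ha]
    have e1 : s + 3 + 6 * ((j + 1 : ℕ) : ZMod k) = (s + 3 + 6 * j + 3) + 3 := by push_cast; ring
    have e2 : C (s + 3 + 6 * j + 3) = 0 := by
      have := hs (j + 1)
      rw [← this]; congr 1; push_cast; ring
    rw [e1, hy, e2, L_zero, hy, exp_neg_L (hC _)]
  have hmono : Monotone a := monotone_nat_of_le_succ fun j => by
    rw [hstep]
    have := mul_nonneg (hC (s + 3 + 6 * j)) (exp_pos (y (s + 3 + 6 * j + 1))).le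
    linarith
  intro j
  have hk : 1 ≤ k := Nat.one_le_iff_ne_zero.mpr (NeZero.ne k)
  have hper : a (j + k) = a j := by
    simp only [ha]
    congr 2
    push_cast
    rw [ZMod.natCast_self, add_zero]
  have h1 : a (j + 1) ≤ a j := by
    rw [← hper]
    exact hmono (by omega)
  rw [hstep] at h1
  have h2 : C (s + 3 + 6 * j) * exp (y (s + 3 + 6 * j + 1)) ≤ 0 := by linarith
  have h3 : C (s + 3 + 6 * j) ≤ 0 := nonpos_of_mul_nonpos_left h2 (exp_pos _)
  exact le_antisymm h3 (hC _)

/-- The recursion `w (m+1) = 1 / (e m + w m)`. -/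
lemma moebius_bounded {e w : ℕ → ℝ} {E c : ℝ} {l : ℕ} (hw : ∀ m, 0 < w m)
    (hrec : ∀ m, w (m + 1) = 1 / (e m + w m)) (he0 : ∀ m, 0 ≤ e m) (heE : ∀ m, e m ≤ E)
    (hc : 0 < c) (hrecur : ∀ m, ∃ j < l, c ≤ e (m + 2 * j)) :
    ∃ B, ∀ m, w m ≤ B := by
  have hE0 : 0 ≤ E := (he0 0).trans (heE 0)
  have h2 : ∀ m, w (m + 2) ≤ w m + E := by
    intro m
    have a1 : w (m + 2) = 1 / (e (m + 1) + w (m + 1)) := hrec (m + 1)
    have a2 : 1 / (e (m + 1) + w (m + 1)) ≤ 1 / w (m + 1) :=
      one_div_le_one_div_of_le (hw _) (by linarith [he0 (m + 1)])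
    have a3 : 1 / w (m + 1) = e m + w m := by rw [hrec m, one_div_one_div]
    linarith [heE m]
  have h2j : ∀ (j m : ℕ), w (m + 2 * j) ≤ w m + j * E := by
    intro j
    induction j with
    | zero => intro m; simp
    | succ j ih =>
      intro m
      have := h2 (m + 2 * j)
      have e1 : m + 2 * (j + 1) = m + 2 * j + 2 := by ring
      rw [e1]
      push_cast
      linarith [ih m]
  have hlow : ∀ m, c ≤ e m → w (m + 1) ≤ 1 / c := by
    intro m hm
    rw [hrec]
    exact one_div_le_one_div_of_le hc (by linarith [hw m])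
  refine ⟨max (w 0) (w 1) + 1 / c + l * E, fun m => ?_⟩
  have hc' : 0 < 1 / c := one_div_pos.mpr hc
  have hl' : (0 : ℝ) ≤ l := Nat.cast_nonneg l
  rcases lt_or_ge m (2 * l) with hm | hm
  · have hcase : ∃ j < l, m = 0 + 2 * j ∨ m = 1 + 2 * j := by
      refine ⟨m / 2, by omega, by omega⟩
    obtain ⟨j, hj, h | h⟩ := hcase
    · have a1 := h2j j 0
      rw [← h] at a1
      have a2 : (j : ℝ) * E ≤ l * E := mul_le_mul_of_nonneg_right (by exact_mod_cast hj.le) hE0
      have := le_max_left (w 0) (w 1)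
      linarith
    · have a1 := h2j j 1
      rw [← h] at a1
      have a2 : (j : ℝ) * E ≤ l * E := mul_le_mul_of_nonneg_right (by exact_mod_cast hj.le) hE0
      have := le_max_right (w 0) (w 1)
      linarith
  · obtain ⟨j, hj, hcj⟩ := hrecur (m + 1 - 2 * l)
    have a1 := hlow _ hcj
    have a2 := h2j (l - 1 - j) (m + 1 - 2 * l + 2 * j + 1)
    have e1 : m + 1 - 2 * l + 2 * j + 1 + 2 * (l - 1 - j) = m := by omega
    rw [e1] at a2
    have a3 : ((l - 1 - j : ℕ) : ℝ) * E ≤ l * E :=
      mul_le_mul_of_nonneg_right (by exact_mod_cast (by omega : l - 1 - j ≤ l)) hE0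
    have a4 : 0 < max (w 0) (w 1) := lt_max_of_lt_left (hw 0)
    linarith

lemma moebius_bounded' {e w : ℕ → ℝ}
    (hrec : ∀ m, w (m + 1) = 1 / (e m + w m)) (he : ∀ m, e m = 0) :
    ∃ B, ∀ m, w m ≤ B := by
  have h2 : ∀ m, w (m + 2) = w m := by
    intro m
    have a1 : w (m + 2) = 1 / (e (m + 1) + w (m + 1)) := hrec (m + 1)
    rw [a1, he, zero_add, hrec m, he, zero_add, one_div_one_div]
  have : ∀ m, w m ≤ max (w 0) (w 1) ∧ w (m + 1) ≤ max (w 0) (w 1) := by
    intro m
    induction m with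
    | zero => exact ⟨le_max_left _ _, le_max_right _ _⟩
    | succ m ih => exact ⟨ih.2, by rw [h2]; exact ih.1⟩
  exact ⟨_, fun m => (this m).1⟩

/-- the solution with initial values `1, 1, 1` -/
noncomputable def sol (C : ZMod k → ℝ) : ℕ → ℝ
  | 0 => 1
  | 1 => 1
  | 2 => 1
  | (n + 3) => 1 / (C (n : ZMod k) * sol C (n + 1) + sol C n)

omit [NeZero k] in
lemma sol_rec (C : ZMod k → ℝ) (n : ℕ) :
    sol C (n + 3) = 1 / (C (n : ZMod k) * sol C (n + 1) + sol C n) := by
  rw [sol]

omit [NeZero k] in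
lemma sol_pos {C : ZMod k → ℝ} (hC : ∀ i, 0 ≤ C i) : ∀ n, 0 < sol C n := by
  intro n
  induction n using Nat.strong_induction_on with
  | _ n ih =>
    rcases n with _ | _ | _ | n
    · simp [sol]
    · simp [sol]
    · simp [sol]
    · have h1 := ih n (by omega)
      have h2 := ih (n + 1) (by omega)
      rw [sol_rec]
      have := hC (n : ZMod k)
      positivity

/-- two-sided bounds on a residue class mod `3` -/
def BddClass (C : ZMod k → ℝ) (a : ℕ) : Prop :=
  ∃ b B : ℝ, 0 < b ∧ ∀ n : ℕ, n % 3 = a % 3 → b ≤ sol C n ∧ sol C n ≤ B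

lemma bddClass_step {C : ZMod k → ℝ} (hC : ∀ i, 0 ≤ C i) (h6 : Six C) {a : ℕ}
    (h : BddClass C (a + 1)) : BddClass C a := by
  obtain ⟨b, B, hb, hbB⟩ := h
  have hk : 1 ≤ k := Nat.one_le_iff_ne_zero.mpr (NeZero.ne k)
  set a' := a % 3 with ha'
  have ha3 : a' < 3 := Nat.mod_lt _ (by norm_num)
  set w : ℕ → ℝ := fun m => sol C (3 * m + a') with hw
  set e : ℕ → ℝ := fun m => C ((3 * m + a' : ℕ) : ZMod k) * sol C (3 * m + a' + 1) with he
  have hwpos : ∀ m, 0 < w m := fun m => sol_pos hC _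
  have hrec : ∀ m, w (m + 1) = 1 / (e m + w m) := by
    intro m
    have : 3 * (m + 1) + a' = 3 * m + a' + 3 := by ring
    simp only [hw, he, this, sol_rec]
  obtain ⟨Cmax, hCmax⟩ : ∃ M, ∀ i, C i ≤ M := by
    obtain ⟨B, hB⟩ := (Set.finite_range C).bddAbove
    exact ⟨B, fun i => hB ⟨i, rfl⟩⟩
  have hCmax0 : 0 ≤ Cmax := (hC 0).trans (hCmax 0)
  have hx : ∀ m, b ≤ sol C (3 * m + a' + 1) ∧ sol C (3 * m + a' + 1) ≤ B := fun m =>
    hbB _ (by omega)
  have hB0 : 0 < B := hb.trans_le ((hx 0).1.trans (hx 0).2)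
  have he0 : ∀ m, 0 ≤ e m := fun m => mul_nonneg (hC _) (sol_pos hC _).le
  have heE : ∀ m, e m ≤ Cmax * B := fun m =>
    mul_le_mul (hCmax _) (hx m).2 (sol_pos hC _).le hCmax0
  have hbound : ∃ B', ∀ m, w m ≤ B' := by
    by_cases hall : ∀ m : ℕ, C ((3 * m + a' : ℕ) : ZMod k) = 0
    · exact moebius_bounded' hrec fun m => by simp only [he, hall m, zero_mul]
    · push Not at hall
      obtain ⟨m0, hm0⟩ := hall
      -- positive lower bound for the nonzero values of `C`
      obtain ⟨c, hc, hcC⟩ : ∃ c > 0, ∀ i, C i ≠ 0 → c ≤ C i := by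
        classical
        obtain ⟨i1, hi1, hmin⟩ := (Finset.univ.filter fun i : ZMod k => C i ≠ 0).exists_min_image C
          ⟨_, Finset.mem_filter.mpr ⟨Finset.mem_univ _, hm0⟩⟩
        refine ⟨C i1, lt_of_le_of_ne (hC _) (Ne.symm (Finset.mem_filter.mp hi1).2), fun i hi => ?_⟩
        exact hmin i (Finset.mem_filter.mpr ⟨Finset.mem_univ _, hi⟩)
      have hrecur : ∀ m, ∃ j < k, C ((3 * (m + 2 * j) + a' : ℕ) : ZMod k) ≠ 0 := by
        intro m
        by_contra hcon
        push Not at hcon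
        have h1 : ∀ j : ℕ, C (((3 * m + a' : ℕ) : ZMod k) + 6 * j) = 0 := by
          intro j
          have h2 := hcon (j % k) (Nat.mod_lt _ hk)
          rw [← h2]
          congr 1
          push_cast
          rw [ZMod.natCast_mod]
          ring
        have h3 := h6 _ h1
        apply hm0
        -- write `m0 ≡ m + t`
        obtain ⟨t, ht⟩ : ∃ t : ℕ, m0 + k * m = m + t := ⟨m0 + k * m - m, by
          have : m ≤ k * m := Nat.le_mul_of_pos_left m hk
          omega⟩
        have e1 : ((3 * m0 + a' : ℕ) : ZMod k) = ((3 * m + a' : ℕ) : ZMod k) + 3 * t := by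
          have : ((m0 + k * m : ℕ) : ZMod k) = ((m + t : ℕ) : ZMod k) := by rw [ht]
          push_cast at this
          rw [ZMod.natCast_self, zero_mul, add_zero] at this
          push_cast
          rw [this]; ring
        rw [e1]
        rcases Nat.even_or_odd' t with ⟨q, hq | hq⟩
        · have := h1 q
          rw [← this]; congr 1; rw [hq]; push_cast; ring
        · have := h3 q
          rw [← this]; congr 1; rw [hq]; push_cast; ring
      refine moebius_bounded (c := c * b) (l := k) hwpos hrec he0 heE (mul_pos hc hb) fun m => ?_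
      obtain ⟨j, hj, hj2⟩ := hrecur m
      refine ⟨j, hj, ?_⟩
      simp only [he]
      exact mul_le_mul (hcC _ hj2) (hx _).1 hb.le (hC _)
  obtain ⟨B', hB'⟩ := hbound
  have hB'0 : 0 < B' := (hwpos 0).trans_le (hB' 0)
  have hlow : ∀ m, min (w 0) (1 / (Cmax * B + B')) ≤ w m := by
    intro m
    rcases m with _ | m
    · exact min_le_left _ _
    · refine (min_le_right _ _).trans ?_
      rw [hrec]
      refine one_div_le_one_div_of_le ?_ (add_le_add (heE m) (hB' m))
      have := he0 m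
      have := hwpos m
      linarith
  have hsum : 0 < Cmax * B + B' := by positivity
  refine ⟨min (w 0) (1 / (Cmax * B + B')), B', lt_min (hwpos 0) (one_div_pos.mpr hsum),
    fun n hn => ?_⟩
  have hn' : n = 3 * (n / 3) + a' := by omega
  rw [hn']
  exact ⟨hlow _, hB' _⟩

/-- Vanishing on a residue class mod `3` together with the six condition gives a periodic
solution. -/
lemma fix_of_class3 {C : ZMod k → ℝ} (hC : ∀ i, 0 ≤ C i) (h6 : Six C) (h3 : ¬ NoClass3 C) :
    ∃ y : ZMod k → ℝ, IsFix C y := by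
  unfold NoClass3 at h3
  push Not at h3
  obtain ⟨i0, hi0⟩ := h3
  have hk : 1 ≤ k := Nat.one_le_iff_ne_zero.mpr (NeZero.ne k)
  set r := i0.val with hr
  have hzero : ∀ n : ℕ, n % 3 = r % 3 → C (n : ZMod k) = 0 := by
    intro n hn
    obtain ⟨j, hj⟩ : ∃ j : ℕ, n + 3 * k * r = r + 3 * j := by
      have h1 : r ≤ 3 * k * r := Nat.le_mul_of_pos_left r (by omega)
      have h2 : (n + 3 * k * r) % 3 = r % 3 := by
        rw [mul_assoc, Nat.add_mul_mod_self_left, hn]
      exact ⟨(n + 3 * k * r - r) / 3, by omega⟩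
    have e1 : (n : ZMod k) = i0 + 3 * j := by
      have : ((n + 3 * k * r : ℕ) : ZMod k) = ((r + 3 * j : ℕ) : ZMod k) := by rw [hj]
      push_cast at this
      rw [ZMod.natCast_self, mul_zero, zero_mul, add_zero, hr, ZMod.natCast_val,
        ZMod.cast_id] at this
      exact this
    rw [e1]; exact hi0 j
  have hone : ∀ n : ℕ, n % 3 = r % 3 → sol C n = 1 := by
    intro n
    induction n using Nat.strong_induction_on with
    | _ n ih =>
      intro hn
      rcases n with _ | _ | _ | n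
      · simp [sol]
      · simp [sol]
      · simp [sol]
      · rw [sol_rec, hzero n (by omega), ih n (by omega) (by omega)]; simp
  have c3 : BddClass C (r + 3) := ⟨1, 1, one_pos, fun n hn => by
    rw [hone n (by omega)]; exact ⟨le_rfl, le_rfl⟩⟩
  have c2 : BddClass C (r + 2) := bddClass_step hC h6 c3
  have c1 : BddClass C (r + 1) := bddClass_step hC h6 c2
  obtain ⟨b1, B1, hb1, h1⟩ := c1
  obtain ⟨b2, B2, hb2, h2⟩ := c2
  obtain ⟨b3, B3, hb3, h3⟩ := c3
  set b := min b1 (min b2 b3) with hb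
  set B := max B1 (max B2 B3) with hB
  have hbpos : 0 < b := lt_min hb1 (lt_min hb2 hb3)
  have hbB : ∀ n, b ≤ sol C n ∧ sol C n ≤ B := by
    intro n
    have hcase : n % 3 = (r + 1) % 3 ∨ n % 3 = (r + 2) % 3 ∨ n % 3 = (r + 3) % 3 := by omega
    rcases hcase with h | h | h
    · exact ⟨(min_le_left _ _).trans (h1 n h).1, (h1 n h).2.trans (le_max_left _ _)⟩
    · exact ⟨((min_le_right _ _).trans (min_le_left _ _)).trans (h2 n h).1,
        (h2 n h).2.trans ((le_max_left _ _).trans (le_max_right _ _))⟩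
    · exact ⟨((min_le_right _ _).trans (min_le_right _ _)).trans (h3 n h).1,
        (h3 n h).2.trans ((le_max_right _ _).trans (le_max_right _ _))⟩
  refine fix_of_bounded hC (Y := fun n => Real.log (sol C n)) (B := max |Real.log b| |Real.log B|)
    ?_ ?_
  · intro n
    show Real.log (sol C (n + 3)) = L (C n) (Real.log (sol C n)) (Real.log (sol C (n + 1)))
    unfold L
    rw [Real.exp_log (sol_pos hC _), Real.exp_log (sol_pos hC _), sol_rec, one_div, Real.log_inv]
  · intro n
    show |Real.log (sol C n)| ≤ _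
    have hlo := Real.log_le_log hbpos (hbB n).1
    have hup := Real.log_le_log (sol_pos hC n) (hbB n).2
    rw [abs_le]
    constructor
    · have := neg_abs_le (Real.log b)
      have := le_max_left |Real.log b| |Real.log B|
      linarith
    · have := le_abs_self (Real.log B)
      have := le_max_right |Real.log b| |Real.log B|
      linarith

end Pool.Agent.H33.Rec
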