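import Pool.Agent.H33.Rec.Fix

set_option autoImplicit false

/-! Uniqueness of the periodic solution when no residue class mod 3 vanishes. -/

namespace Pool.Agent.H33.Rec

open Real Filter Topology

variable {k : ℕ}

/-- the coefficient vanishes on no residue class modulo `3` -/
def NoClass3 (C : ZMod k → ℝ) : Prop := ∀ i : ZMod k, ∃ j : ℕ, C (i + 3 * j) ≠ 0

lemma equality_case {c : ℝ} (hc : 0 ≤ c) {a a' b b' M : ℝ} (ha : -M ≤ a - a') (hb : -M ≤ b - b')
    (h : L c a b - L c a' b' = M) : a - a' = -M ∧ (c ≠ 0 → b - b' = -M) := by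
  have h1 : exp (-(L c a' b')) = exp M * exp (-(L c a b)) := by
    rw [← exp_add]; congr 1; linarith
  rw [exp_neg_L hc, exp_neg_L hc] at h1
  have e1 : exp a' ≤ exp M * exp a := by rw [← exp_add]; exact exp_le_exp.mpr (by linarith)
  have e2 : exp b' ≤ exp M * exp b := by rw [← exp_add]; exact exp_le_exp.mpr (by linarith)
  have e3 : c * (exp M * exp b - exp b') + (exp M * exp a - exp a') = 0 := by linarith
  have e4 : 0 ≤ c * (exp M * exp b - exp b') := mul_nonneg hc (by linarith)
  have e5 : exp M * exp a - exp a' = 0 := by linarith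
  have e6 : c * (exp M * exp b - exp b') = 0 := by linarith
  constructor
  · have : exp (M + a) = exp a' := by rw [exp_add]; linarith
    have := exp_injective this
    linarith
  · intro hc0
    have h7 : exp M * exp b - exp b' = 0 := by
      rcases mul_eq_zero.mp e6 with h | h
      · exact absurd h hc0
      · exact h
    have : exp (M + b) = exp b' := by rw [exp_add]; linarith
    have := exp_injective this
    linarith

lemma back_step {C : ZMod k → ℝ} (hC : ∀ i, 0 ≤ C i) {y y' : ZMod k → ℝ} (hy : IsFix C y)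
    (hy' : IsFix C y') {M : ℝ} (hM : ∀ i, |y i - y' i| ≤ M) {i : ZMod k}
    (hi : |y (i + 3) - y' (i + 3)| = M) :
    y i - y' i = -(y (i + 3) - y' (i + 3)) ∧
      (C i ≠ 0 → y (i + 1) - y' (i + 1) = -(y (i + 3) - y' (i + 3))) := by
  have ha := hM i
  have hb := hM (i + 1)
  rw [abs_le] at ha hb
  rcases abs_eq_abs.mp (hi.trans (abs_of_nonneg ((abs_nonneg _).trans (hM i))).symm) with h | h
  · rw [h]
    have h2 : L (C i) (y i) (y (i + 1)) - L (C i) (y' i) (y' (i + 1)) = M := by
      rw [← hy i, ← hy' i]; exact h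
    exact equality_case (hC i) (by linarith) (by linarith) h2
  · rw [h]
    have h2 : L (C i) (y' i) (y' (i + 1)) - L (C i) (y i) (y (i + 1)) = M := by
      rw [← hy i, ← hy' i]; linarith
    obtain ⟨h3, h4⟩ := equality_case (hC i) (a := y' i) (a' := y i) (b := y' (i + 1))
      (b' := y (i + 1)) (by linarith) (by linarith) h2
    refine ⟨by linarith, fun hc => ?_⟩
    have := h4 hc
    linarith

variable [NeZero k]

lemma fix_unique {C : ZMod k → ℝ} (hC : ∀ i, 0 ≤ C i) (h3 : NoClass3 C) {y y' : ZMod k → ℝ}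
    (hy : IsFix C y) (hy' : IsFix C y') : y = y' := by
  obtain ⟨i0, hi0⟩ := Finite.exists_max fun i => |y i - y' i|
  set M := |y i0 - y' i0| with hMdef
  by_cases hM0 : M = 0
  · funext i
    have := hi0 i
    rw [hM0] at this
    have := abs_nonpos_iff.mp this
    linarith
  exfalso
  have hMpos : 0 < M := lt_of_le_of_ne (abs_nonneg _) (Ne.symm hM0)
  set u : ZMod k → ℝ := fun i => y i - y' i with hu
  have hM : ∀ i, |y i - y' i| ≤ M := hi0
  have hb : ∀ i, |u (i + 3)| = M → u i = -(u (i + 3)) ∧ (C i ≠ 0 → u (i + 1) = -(u (i + 3))) :=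
    fun i hi => back_step hC hy hy' hM hi
  have hb1 : ∀ i, |u (i + 3)| = M → |u i| = M := by
    intro i hi
    rw [(hb i hi).1, abs_neg, hi]
  have hbm : ∀ (m : ℕ) (i : ZMod k), |u (i + 3 * m)| = M → |u i| = M := by
    intro m
    induction m with
    | zero => intro i hi; simpa using hi
    | succ m ih =>
      intro i hi
      apply ih
      apply hb1
      convert hi using 3
      push_cast; ring
  have hk : 1 ≤ k := Nat.one_le_iff_ne_zero.mpr (NeZero.ne k)
  have hcast : ((k - 1 : ℕ) : ZMod k) = -1 := by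
    rw [Nat.cast_sub hk]; simp
  have hf : ∀ i, |u i| = M → |u (i + 3)| = M := by
    intro i hi
    apply hbm (k - 1)
    convert hi using 3
    rw [hcast]; ring
  have hneg : ∀ i, |u i| = M → u (i + 3) = -(u i) := by
    intro i hi
    have := (hb i (hf i hi)).1
    linarith
  have hfm : ∀ (m : ℕ) (i : ZMod k), |u i| = M → |u (i + 3 * m)| = M ∧
      u (i + 3 * m) = (-1) ^ m * u i := by
    intro m
    induction m with
    | zero => intro i hi; simp [hi]
    | succ m ih =>
      intro i hi
      obtain ⟨h1, h2⟩ := ih i hi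
      have e : i + 3 * ((m + 1 : ℕ) : ZMod k) = i + 3 * m + 3 := by push_cast; ring
      rw [e]
      refine ⟨hf _ h1, ?_⟩
      rw [hneg _ h1, h2]; ring
  have hstep : ∀ i, |u i| = M → |u (i + 1)| = M ∧ u (i + 1) = u i := by
    intro i hi
    obtain ⟨j, hj⟩ := h3 i
    obtain ⟨h1, h2⟩ := hfm j i hi
    have h4 := (hb _ (hf _ h1)).2 hj
    rw [hneg _ h1, neg_neg] at h4
    have h5 : |u (i + 3 * j + 1)| = M := by rw [h4]; exact h1
    have h6 : |u (i + 1 + 3 * j)| = M := by
      convert h5 using 3; ring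
    have h7 := hbm j (i + 1) h6
    refine ⟨h7, ?_⟩
    have h8 := (hfm j (i + 1) h7).2
    have h9 : u (i + 1 + 3 * j) = u (i + 3 * j) := by
      rw [← h4]; congr 1; ring
    rw [h9, h2] at h8
    have hne : ((-1 : ℝ)) ^ j ≠ 0 := pow_ne_zero _ (by norm_num)
    exact (mul_left_cancel₀ hne h8).symm
  obtain ⟨a1, b1⟩ := hstep i0 rfl
  obtain ⟨a2, b2⟩ := hstep _ a1
  obtain ⟨a3, b3⟩ := hstep _ a2
  have e3 : i0 + 1 + 1 + 1 = i0 + 3 := by ring
  rw [e3] at b3
  have h := hneg i0 rfl
  rw [b3, b2, b1] at h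
  have : u i0 = 0 := by linarith
  have h2 : M = |u i0| := rfl
  rw [h2, this, abs_zero] at hMpos
  exact lt_irrefl _ hMpos

end Pool.Agent.H33.Rec
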