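import Pool.Agent.H33.Rec.Main

set_option autoImplicit false

/-! Structure of the sign patterns. -/

namespace Pool.Agent.H33.Rec

section seq

variable {e : ℕ → ℤ} {c : ℕ → ℝ}

/-- the sign rule along the natural numbers -/
def Rule (e : ℕ → ℤ) (c : ℕ → ℝ) : Prop :=
  ∀ n, (e n = 1 ∨ e n = -1) ∧ e (n + 3) = if c n = 0 then -e n else -max (e n) (e (n + 1))

def TT (e : ℕ → ℤ) (n : ℕ) : Prop := e n = -1 ∧ e (n + 1) = 1 ∧ e (n + 2) = 1

lemma rule1 (h : Rule e c) {n : ℕ} (hn : e n = 1) : e (n + 3) = -1 := by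
  rw [(h n).2]
  split_ifs
  · rw [hn]
  · have := le_max_left (e n) (e (n + 1))
    rcases (h (n + 1)).1 with h1 | h1 <;> rw [h1, hn] <;> decide

lemma rule2 (h : Rule e c) {n : ℕ} (hn : e n = -1) (hn1 : e (n + 1) = -1) : e (n + 3) = 1 := by
  rw [(h n).2]
  split_ifs
  · rw [hn]; norm_num
  · rw [hn, hn1]; decide

lemma rule3 (h : Rule e c) {n : ℕ} (hn : e n = -1) (hn1 : e (n + 1) = 1) :
    e (n + 3) = if c n = 0 then 1 else -1 := by
  rw [(h n).2]
  split_ifs
  · rw [hn]; norm_num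
  · rw [hn, hn1]; decide

lemma tt_next_five (h : Rule e c) {n : ℕ} (hn : TT e n) (hc : c n ≠ 0) :
    TT e (n + 5) ∧ ¬ TT e (n + 1) ∧ ¬ TT e (n + 2) ∧ ¬ TT e (n + 3) ∧ ¬ TT e (n + 4) ∧
      e (n + 3) = -1 ∧ e (n + 4) = -1 := by
  obtain ⟨h0, h1, h2⟩ := hn
  have h3 : e (n + 3) = -1 := by rw [rule3 h h0 h1, if_neg hc]
  have h4 : e (n + 4) = -1 := rule1 h h1
  have h5 : e (n + 5) = -1 := rule1 h h2
  have h6 : e (n + 6) = 1 := rule2 h h3 h4
  have h7 : e (n + 7) = 1 := rule2 h h4 h5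
  refine ⟨⟨h5, h6, h7⟩, ?_, ?_, ?_, ?_, h3, h4⟩
  · rintro ⟨a, -, -⟩; rw [h1] at a; norm_num at a
  · rintro ⟨a, -, -⟩; rw [h2] at a; norm_num at a
  · rintro ⟨-, a, -⟩
    have : e (n + 4) = 1 := a
    rw [h4] at this; norm_num at this
  · rintro ⟨-, a, -⟩
    have : e (n + 5) = 1 := a
    rw [h5] at this; norm_num at this

lemma tt_next_six (h : Rule e c) {n : ℕ} (hn : TT e n) (hc : c n = 0) :
    TT e (n + 6) ∧ ¬ TT e (n + 1) ∧ ¬ TT e (n + 2) ∧ ¬ TT e (n + 3) ∧ ¬ TT e (n + 4) ∧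
      ¬ TT e (n + 5) := by
  obtain ⟨h0, h1, h2⟩ := hn
  have h3 : e (n + 3) = 1 := by rw [rule3 h h0 h1, if_pos hc]
  have h4 : e (n + 4) = -1 := rule1 h h1
  have h5 : e (n + 5) = -1 := rule1 h h2
  have h6 : e (n + 6) = -1 := rule1 h h3
  have h7 : e (n + 7) = 1 := rule2 h h4 h5
  have h8 : e (n + 8) = 1 := rule2 h h5 h6
  refine ⟨⟨h6, h7, h8⟩, ?_, ?_, ?_, ?_, ?_⟩
  · rintro ⟨a, -, -⟩; rw [h1] at a; norm_num at a
  · rintro ⟨a, -, -⟩; rw [h2] at a; norm_num at a
  · rintro ⟨a, -, -⟩; rw [h3] at a; norm_num at a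
  · rintro ⟨-, a, -⟩
    have : e (n + 5) = 1 := a
    rw [h5] at this; norm_num at this
  · rintro ⟨-, a, -⟩
    have : e (n + 6) = 1 := a
    rw [h6] at this; norm_num at this

lemma exists_tt_of_eq (h : Rule e c) {n : ℕ} (hn : e n = e (n + 1)) : ∃ m, TT e m := by
  rcases (h n).1 with h0 | h0
  · have h1 : e (n + 1) = 1 := by rw [← hn, h0]
    have h3 : e (n + 3) = -1 := rule1 h h0
    have h4 : e (n + 4) = -1 := rule1 h h1
    have h6 : e (n + 6) = 1 := rule2 h h3 h4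
    rcases (h (n + 2)).1 with h2 | h2
    · have h5 : e (n + 5) = -1 := rule1 h h2
      have h7 : e (n + 7) = 1 := rule2 h h4 h5
      exact ⟨n + 5, h5, h6, h7⟩
    · have h5 : e (n + 5) = 1 := rule2 h h2 h3
      exact ⟨n + 4, h4, h5, h6⟩
  · have h1 : e (n + 1) = -1 := by rw [← hn, h0]
    have h3 : e (n + 3) = 1 := rule2 h h0 h1
    rcases (h (n + 2)).1 with h2 | h2
    · exact ⟨n + 1, h1, h2, h3⟩
    · have h4 : e (n + 4) = 1 := rule2 h h1 h2
      exact ⟨n + 2, h2, h3, h4⟩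

lemma exists_tt_or (h : Rule e c) : (∃ m, TT e m) ∨ ∃ n, ∀ j, c (n + 2 * j) = 0 := by
  by_cases hall : ∃ n, e n = e (n + 1)
  · obtain ⟨n, hn⟩ := hall
    exact Or.inl (exists_tt_of_eq h hn)
  · push Not at hall
    right
    have halt : ∀ n, e (n + 1) = -e n := by
      intro n
      have := hall n
      rcases (h n).1 with a | a <;> rcases (h (n + 1)).1 with b | b <;> rw [a, b] at this ⊢ <;>
        simp_all
    obtain ⟨n0, hn0⟩ : ∃ n, e n = -1 := by
      rcases (h 0).1 with a | a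
      · exact ⟨1, by rw [halt 0, a]⟩
      · exact ⟨0, a⟩
    refine ⟨n0, fun j => ?_⟩
    have hj : e (n0 + 2 * j) = -1 := by
      induction j with
      | zero => simpa using hn0
      | succ j ih =>
        have : n0 + 2 * (j + 1) = n0 + 2 * j + 1 + 1 := by ring
        rw [this, halt, halt, ih]; norm_num
    set m := n0 + 2 * j
    have h1 : e (m + 1) = 1 := by rw [halt, hj]; norm_num
    have h3 : e (m + 3) = 1 := by
      rw [halt (m + 2), halt (m + 1), halt m, hj]; norm_num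
    by_contra hc
    rw [rule3 h hj h1, if_neg hc] at h3
    norm_num at h3

/-- the walk -/
noncomputable def walk (c : ℕ → ℝ) (n0 : ℕ) : ℕ → ℕ
  | 0 => n0
  | (j + 1) => walk c n0 j + if c (walk c n0 j) = 0 then 6 else 5

lemma walk_lt (c : ℕ → ℝ) (n0 j : ℕ) : walk c n0 j < walk c n0 (j + 1) := by
  rw [walk]; split_ifs <;> omega

lemma walk_ge (c : ℕ → ℝ) (n0 j : ℕ) : n0 + j ≤ walk c n0 j := by
  induction j with
  | zero => simp [walk]
  | succ j ih => have := walk_lt c n0 j; omega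

lemma walk_tt (h : Rule e c) {n0 : ℕ} (h0 : TT e n0) (j : ℕ) : TT e (walk c n0 j) := by
  induction j with
  | zero => exact h0
  | succ j ih =>
    rw [walk]
    split_ifs with hc
    · exact (tt_next_six h ih hc).1
    · exact (tt_next_five h ih hc).1

lemma walk_surj (h : Rule e c) {n0 : ℕ} (h0 : TT e n0) {m : ℕ} (hm : n0 ≤ m) (hT : TT e m) :
    ∃ j, walk c n0 j = m := by
  classical
  have hex : ∃ j, m < walk c n0 j := ⟨m + 1, by have := walk_ge c n0 (m + 1); omega⟩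
  obtain ⟨j, hj, hmin⟩ : ∃ j, m < walk c n0 (j + 1) ∧ walk c n0 j ≤ m := by
    have h1 := Nat.find_spec hex
    have h2 : Nat.find hex ≠ 0 := by
      intro h3
      rw [h3] at h1
      simp only [walk] at h1
      omega
    obtain ⟨j, hj⟩ := Nat.exists_eq_succ_of_ne_zero h2
    refine ⟨j, by rw [hj] at h1; exact h1, ?_⟩
    have := Nat.find_min hex (m := j) (by omega)
    omega
  refine ⟨j, ?_⟩
  have hT' := walk_tt h h0 j
  rw [walk] at hj
  by_contra hne
  obtain ⟨t, ht⟩ : ∃ t, m = walk c n0 j + t := ⟨m - walk c n0 j, by omega⟩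
  split_ifs at hj with hc
  · obtain ⟨-, a1, a2, a3, a4, a5⟩ := tt_next_six h hT' hc
    have : t = 1 ∨ t = 2 ∨ t = 3 ∨ t = 4 ∨ t = 5 := by omega
    rcases this with h | h | h | h | h <;> rw [ht, h] at hT <;> contradiction
  · obtain ⟨-, a1, a2, a3, a4, -⟩ := tt_next_five h hT' hc
    have : t = 1 ∨ t = 2 ∨ t = 3 ∨ t = 4 := by omega
    rcases this with h | h | h | h <;> rw [ht, h] at hT <;> contradiction

lemma walk_form (c : ℕ → ℝ) (n0 j : ℕ) :
    (∃ a b : ℕ, walk c n0 j = n0 + 5 * (a + 1) + 6 * b) ∨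
      (walk c n0 j = n0 + 6 * j ∧ ∀ t < j, c (n0 + 6 * t) = 0) := by
  induction j with
  | zero => right; simp [walk]
  | succ j ih =>
    rcases ih with ⟨a, b, hab⟩ | ⟨h1, h2⟩
    · left
      rw [walk]
      split_ifs
      · exact ⟨a, b + 1, by rw [hab]; ring⟩
      · exact ⟨a + 1, b, by rw [hab]; ring⟩
    · rw [walk]
      split_ifs with hc
      · right
        refine ⟨by rw [h1]; ring, fun t ht => ?_⟩
        rcases Nat.lt_succ_iff_lt_or_eq.mp ht with h | h
        · exact h2 t h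
        · rw [h, ← h1]; exact hc
      · left
        exact ⟨0, j, by rw [h1]; ring⟩

end seq

variable {k : ℕ} [NeZero k]

omit [NeZero k] in
lemma rule_of_pattern {C : ZMod k → ℝ} {ε : ZMod k → ℤ} (h : IsSignPattern C ε) :
    Rule (fun n : ℕ => ε n) (fun n : ℕ => C n) := by
  intro n
  have := h (n : ZMod k)
  refine ⟨this.1, ?_⟩
  have h2 := this.2
  push_cast
  exact h2

/-- From a sign pattern: either `k = 5 a + 6 b` with `a ≥ 1`, or the coefficient vanishes on a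
residue class mod `3`, provided the six condition holds. -/
lemma pattern_form {C : ZMod k → ℝ} (h6 : Six C) (h3 : NoClass3 C) {ε : ZMod k → ℤ}
    (hε : IsSignPattern C ε) : ∃ a b : ℕ, k = 5 * (a + 1) + 6 * b := by
  have hk : 1 ≤ k := Nat.one_le_iff_ne_zero.mpr (NeZero.ne k)
  -- vanishing on a class mod 6 is impossible
  have hno : ∀ n : ℕ, ¬ ∀ j : ℕ, C ((n : ZMod k) + 6 * j) = 0 := by
    intro n hn
    obtain ⟨j, hj⟩ := h3 (n : ZMod k)
    apply hj
    rcases Nat.even_or_odd' j with ⟨q, hq | hq⟩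
    · rw [← hn q]; congr 1; rw [hq]; push_cast; ring
    · rw [← h6 _ hn q]; congr 1; rw [hq]; push_cast; ring
  have hrule := rule_of_pattern hε
  rcases exists_tt_or hrule with ⟨n0, hn0⟩ | ⟨n, hn⟩
  · have hn0' : TT (fun n : ℕ => ε n) (n0 + k) := by
      obtain ⟨a0, a1, a2⟩ := hn0
      refine ⟨?_, ?_, ?_⟩
      · have e1 : ((n0 + k : ℕ) : ZMod k) = n0 := by push_cast; rw [ZMod.natCast_self, add_zero]
        show ε ((n0 + k : ℕ) : ZMod k) = -1
        rw [e1]; exact a0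
      · have e1 : ((n0 + k + 1 : ℕ) : ZMod k) = ((n0 + 1 : ℕ) : ZMod k) := by
          push_cast; rw [ZMod.natCast_self, add_zero]
        show ε ((n0 + k + 1 : ℕ) : ZMod k) = 1
        rw [e1]; exact a1
      · have e1 : ((n0 + k + 2 : ℕ) : ZMod k) = ((n0 + 2 : ℕ) : ZMod k) := by
          push_cast; rw [ZMod.natCast_self, add_zero]
        show ε ((n0 + k + 2 : ℕ) : ZMod k) = 1
        rw [e1]; exact a2
    obtain ⟨j, hj⟩ := walk_surj hrule hn0 (by omega) hn0'
    rcases walk_form (fun n : ℕ => C n) n0 j with ⟨a, b, hab⟩ | ⟨h1, h2⟩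
    · exact ⟨a, b, by omega⟩
    · exfalso
      have hkj : k = 6 * j := by omega
      apply hno n0
      intro t
      have hj0 : 0 < j := by omega
      have h7 := h2 (t % j) (Nat.mod_lt _ hj0)
      rw [← h7]
      show C ((n0 : ZMod k) + 6 * (t : ZMod k)) = C ((n0 + 6 * (t % j) : ℕ) : ZMod k)
      congr 1
      have h8 : ((6 * t : ℕ) : ZMod k) = ((6 * (t % j) : ℕ) : ZMod k) := by
        have : 6 * t = 6 * (t % j) + k * (t / j) := by
          conv_lhs => rw [← Nat.mod_add_div t j]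
          rw [hkj]; ring
        rw [this]; push_cast; rw [ZMod.natCast_self]; ring
      push_cast at h8 ⊢
      rw [h8]
  · exfalso
    apply hno n
    intro j
    have := hn (3 * j)
    rw [← this]
    show C ((n : ZMod k) + 6 * (j : ZMod k)) = C ((n + 2 * (3 * j) : ℕ) : ZMod k)
    congr 1
    push_cast; ring

/-- If `k` is not of the form `5 a + 6 b` with `a ≥ 1`, only the six condition matters. -/
theorem allBounded_iff_six {C : ZMod k → ℝ} (hC : ∀ i, 0 ≤ C i)
    (hk : ∀ a b : ℕ, k ≠ 5 * (a + 1) + 6 * b) : AllBounded C ↔ Six C := by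
  rw [allBounded_iff hC]
  refine ⟨fun h => h.1, fun h6 => ⟨h6, ?_⟩⟩
  by_cases h3 : NoClass3 C
  · right
    intro ε hε
    obtain ⟨a, b, h⟩ := pattern_form h6 h3 hε
    exact absurd h (hk a b)
  · left; exact h3

end Pool.Agent.H33.Rec
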