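import Pool.Agent.H33.Rec.Five

set_option autoImplicit false

/-! The walk form of the criterion. -/

namespace Pool.Agent.H33.Rec

/-- one block of the walk -/
noncomputable def blk (c : ℕ → ℝ) (n : ℕ) (p : ℝ × ℝ × ℝ) : ℝ × ℝ × ℝ :=
  if c n = 0 then
    (p.1, 1 / (c (n + 4) / (c (n + 2) * p.1 + p.2.2) + 1 / (c (n + 1) * p.2.2 + p.2.1)),
      1 / (c (n + 5) / p.1 + 1 / (c (n + 2) * p.1 + p.2.2)))
  else
    (p.2.2, 1 / (c (n + 3) / (c (n + 1) * p.2.2 + p.2.1) + 1 / (c n * p.2.1)),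
      1 / (c (n + 4) / p.2.2 + 1 / (c (n + 1) * p.2.2 + p.2.1)))

/-- the composition of the blocks along the walk -/
noncomputable def run (c : ℕ → ℝ) (n : ℕ) (p : ℝ × ℝ × ℝ) : ℕ → ℝ × ℝ × ℝ
  | 0 => p
  | (j + 1) => blk c (walk c n j) (run c n p j)

lemma walk_shift (c : ℕ → ℝ) (n0 j : ℕ) : walk c n0 j = n0 + walk (fun m => c (n0 + m)) 0 j := by
  induction j with
  | zero => simp [walk]
  | succ j ih =>
    rw [walk, walk, ← ih]
    split_ifs <;> omega

lemma run_shift (c : ℕ → ℝ) (n0 : ℕ) (p : ℝ × ℝ × ℝ) (j : ℕ) :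
    run c n0 p j = run (fun m => c (n0 + m)) 0 p j := by
  induction j with
  | zero => rfl
  | succ j ih =>
    rw [run, run, ih, walk_shift c n0 j]
    simp only [blk, add_assoc]

/-- the homogeneous one-step map -/
noncomputable def Q (e : ℕ → ℤ) (c : ℕ → ℝ) (m : ℕ) (a b : ℝ) : ℝ :=
  if e (m + 3) = 1 then 1 / (c m / b + 1 / a)
  else (if e (m + 1) = 1 then c m * b else 0) + (if e m = 1 then a else 0)

lemma Q_pos {e : ℕ → ℤ} {c : ℕ → ℝ} (hc : ∀ n, 0 ≤ c n) (h : Rule e c) {m : ℕ} {a b : ℝ}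
    (ha : 0 < a) (hb : 0 < b) : 0 < Q e c m a b := by
  unfold Q
  split_ifs with h3 h1 h0 h0
  · have := hc m; positivity
  · have := hc m; positivity
  · have hm := (h m).2
    rcases (h (m + 3)).1 with h4 | h4
    · exact absurd h4 h3
    · rcases (h m).1 with h5 | h5
      · exact absurd h5 h0
      · rw [h4, h5, h1] at hm
        split_ifs at hm with hz
        · norm_num at hm
        · have : 0 < c m := lt_of_le_of_ne (hc m) (Ne.symm hz)
          positivity
  · linarith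
  · have hm := (h m).2
    rcases (h (m + 3)).1 with h4 | h4
    · exact absurd h4 h3
    · rcases (h m).1 with h5 | h5
      · exact absurd h5 h0
      · rcases (h (m + 1)).1 with h6 | h6
        · exact absurd h6 h1
        · rw [h4, h5, h6] at hm
          split_ifs at hm <;> norm_num at hm

lemma Q_mono {e : ℕ → ℤ} {c : ℕ → ℝ} (hc : ∀ n, 0 ≤ c n) {m : ℕ} {a a' b b' : ℝ}
    (ha : 0 < a) (hb : 0 < b) (haa : a ≤ a') (hbb : b ≤ b') : Q e c m a b ≤ Q e c m a' b' := by
  have hcm := hc m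
  unfold Q
  split_ifs with h3 h1 h0 h0
  · have ha' := ha.trans_le haa
    have hb' := hb.trans_le hbb
    refine one_div_le_one_div_of_le (by positivity) (add_le_add ?_ ?_)
    · exact div_le_div_of_nonneg_left hcm hb hbb
    · exact one_div_le_one_div_of_le ha haa
  · exact add_le_add (mul_le_mul_of_nonneg_left hbb hcm) haa
  · exact add_le_add (mul_le_mul_of_nonneg_left hbb hcm) le_rfl
  · exact add_le_add le_rfl haa
  · exact le_rfl

/-- a strict supersolution along the walk dominates the run -/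
lemma run_lt {e : ℕ → ℤ} {c : ℕ → ℝ} (hc : ∀ n, 0 ≤ c n) (h : Rule e c) (h0 : TT e 0)
    {V : ℕ → ℝ} (hV : ∀ m, 0 < V m) (hVQ : ∀ m, Q e c m (V m) (V (m + 1)) < V (m + 3)) (j : ℕ) :
    (0 < (run c 0 (V 0, V 1, V 2) j).1 ∧ 0 < (run c 0 (V 0, V 1, V 2) j).2.1 ∧
      0 < (run c 0 (V 0, V 1, V 2) j).2.2) ∧
    ((run c 0 (V 0, V 1, V 2) j).1 ≤ V (walk c 0 j) ∧
      (run c 0 (V 0, V 1, V 2) j).2.1 ≤ V (walk c 0 j + 1) ∧
      (run c 0 (V 0, V 1, V 2) j).2.2 ≤ V (walk c 0 j + 2)) ∧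
    (0 < j → (run c 0 (V 0, V 1, V 2) j).1 < V (walk c 0 j) ∧
      (run c 0 (V 0, V 1, V 2) j).2.1 < V (walk c 0 j + 1) ∧
      (run c 0 (V 0, V 1, V 2) j).2.2 < V (walk c 0 j + 2)) := by
  induction j with
  | zero =>
    simp only [run, walk]
    exact ⟨⟨hV 0, hV 1, hV 2⟩, ⟨le_rfl, le_rfl, le_rfl⟩, fun h => absurd h (lt_irrefl _)⟩
  | succ j ih =>
    obtain ⟨⟨p1, p2, p3⟩, ⟨l1, l2, l3⟩, -⟩ := ih
    have hTT := walk_tt h h0 j
    set t := walk c 0 j with ht
    set p := run c 0 (V 0, V 1, V 2) j with hp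
    have hrun : run c 0 (V 0, V 1, V 2) (j + 1) = blk c t p := rfl
    have hwalk : walk c 0 (j + 1) = t + if c t = 0 then 6 else 5 := rfl
    have hq3 := hVQ t
    have hq4 := hVQ (t + 1)
    have hq5 := hVQ (t + 2)
    have hq6 := hVQ (t + 3)
    have hq7 := hVQ (t + 4)
    have hq8 := hVQ (t + 5)
    simp only [Q, add_assoc] at hq3 hq4 hq5 hq6 hq7 hq8
    norm_num at hq3 hq4 hq5 hq6 hq7 hq8
    have g1 := hc (t + 1)
    have g2 := hc (t + 2)
    have g3 := hc (t + 3)
    have g4 := hc (t + 4)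
    have g5 := hc (t + 5)
    suffices hs : (0 < (blk c t p).1 ∧ 0 < (blk c t p).2.1 ∧ 0 < (blk c t p).2.2) ∧
        ((blk c t p).1 < V (t + if c t = 0 then 6 else 5) ∧
        (blk c t p).2.1 < V ((t + if c t = 0 then 6 else 5) + 1) ∧
        (blk c t p).2.2 < V ((t + if c t = 0 then 6 else 5) + 2)) by
      rw [hrun, hwalk]
      exact ⟨hs.1, ⟨hs.2.1.le, hs.2.2.1.le, hs.2.2.2.le⟩, fun _ => hs.2⟩
    by_cases hct : c t = 0
    · obtain ⟨s6, -, -, -, -, -⟩ := tt_next_six h hTT hct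
      obtain ⟨e0, e1, e2⟩ := hTT
      have e3 : e (t + 3) = 1 := by rw [rule3 h e0 e1, if_pos hct]
      have e4 : e (t + 4) = -1 := rule1 h e1
      have e5 : e (t + 5) = -1 := rule1 h e2
      obtain ⟨e6, e7, e8⟩ := s6
      have e7 : e (t + 7) = 1 := e7
      have e8 : e (t + 8) = 1 := e8
      simp only [e0, e1, e2, e3, e4, e5, e6, e7, e8, hct] at hq3 hq4 hq5 hq6 hq7 hq8
      norm_num at hq3 hq4 hq5 hq6 hq7 hq8
      have hbk : blk c t p = (p.1,
          1 / (c (t + 4) / (c (t + 2) * p.1 + p.2.2) + 1 / (c (t + 1) * p.2.2 + p.2.1)),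
          1 / (c (t + 5) / p.1 + 1 / (c (t + 2) * p.1 + p.2.2))) := by
        unfold blk; rw [if_pos hct]
      rw [hbk, if_pos hct]
      have a1 : 0 < c (t + 2) * p.1 + p.2.2 := by positivity
      have a2 : 0 < c (t + 1) * p.2.2 + p.2.1 := by positivity
      have b1 : c (t + 2) * p.1 + p.2.2 ≤ V (t + 5) := by nlinarith
      have b2 : c (t + 1) * p.2.2 + p.2.1 ≤ V (t + 4) := by nlinarith
      have b3 : p.1 < V (t + 6) := by linarith
      refine ⟨⟨p1, by positivity, by positivity⟩, ⟨b3, ?_, ?_⟩⟩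
      · show _ < V (t + 7)
        refine lt_of_le_of_lt ?_ hq7
        rw [← one_div]
        refine one_div_le_one_div_of_le ?_ (add_le_add ?_ ?_)
        · have := hV (t + 5); have := hV (t + 4); positivity
        · exact div_le_div_of_nonneg_left g4 a1 b1
        · rw [← one_div]; exact one_div_le_one_div_of_le a2 b2
      · show _ < V (t + 8)
        refine lt_of_le_of_lt ?_ hq8
        rw [← one_div]
        refine one_div_le_one_div_of_le ?_ (add_le_add ?_ ?_)
        · have := hV (t + 5); have := hV (t + 6); positivity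
        · exact div_le_div_of_nonneg_left g5 p1 b3.le
        · rw [← one_div]; exact one_div_le_one_div_of_le a1 b1
    · obtain ⟨s5, -, -, -, -, -, -⟩ := tt_next_five h hTT hct
      obtain ⟨e0, e1, e2⟩ := hTT
      have e3 : e (t + 3) = -1 := by rw [rule3 h e0 e1, if_neg hct]
      have e4 : e (t + 4) = -1 := rule1 h e1
      obtain ⟨e5, e6, e7⟩ := s5
      have e6 : e (t + 6) = 1 := e6
      have e7 : e (t + 7) = 1 := e7
      simp only [e0, e1, e2, e3, e4, e5, e6, e7] at hq3 hq4 hq5 hq6 hq7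
      norm_num at hq3 hq4 hq5 hq6 hq7
      have hcp : 0 < c t := lt_of_le_of_ne (hc t) (Ne.symm hct)
      have hbk : blk c t p = (p.2.2,
          1 / (c (t + 3) / (c (t + 1) * p.2.2 + p.2.1) + 1 / (c t * p.2.1)),
          1 / (c (t + 4) / p.2.2 + 1 / (c (t + 1) * p.2.2 + p.2.1))) := by
        unfold blk; rw [if_neg hct]
      rw [hbk, if_neg hct]
      have a1 : 0 < c t * p.2.1 := by positivity
      have a2 : 0 < c (t + 1) * p.2.2 + p.2.1 := by positivity
      have b1 : c t * p.2.1 ≤ V (t + 3) := by nlinarith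
      have b2 : c (t + 1) * p.2.2 + p.2.1 ≤ V (t + 4) := by nlinarith
      have b3 : p.2.2 < V (t + 5) := by linarith
      refine ⟨⟨p3, by positivity, by positivity⟩, ⟨b3, ?_, ?_⟩⟩
      · show _ < V (t + 6)
        refine lt_of_le_of_lt ?_ hq6
        rw [← one_div]
        refine one_div_le_one_div_of_le ?_ (add_le_add ?_ ?_)
        · have := hV (t + 3); have := hV (t + 4); positivity
        · exact div_le_div_of_nonneg_left g3 a2 b2
        · rw [← one_div]; exact one_div_le_one_div_of_le a1 b1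
      · show _ < V (t + 7)
        refine lt_of_le_of_lt ?_ hq7
        rw [← one_div]
        refine one_div_le_one_div_of_le ?_ (add_le_add ?_ ?_)
        · have := hV (t + 5); have := hV (t + 4); positivity
        · exact div_le_div_of_nonneg_left g4 p3 b3.le
        · rw [← one_div]; exact one_div_le_one_div_of_le a2 b2

end Pool.Agent.H33.Rec
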