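import Pool.Agent.H33.Rec.Walk2

set_option autoImplicit false

/-! From weights to the walk form and back. -/

namespace Pool.Agent.H33.Rec

/-- the sign sequence generated from `-,+,+` -/
noncomputable def sg (c : ℕ → ℝ) : ℕ → ℤ
  | 0 => -1
  | 1 => 1
  | 2 => 1
  | (m + 3) => if c m = 0 then -sg c m else -max (sg c m) (sg c (m + 1))

lemma sg_rule (c : ℕ → ℝ) : Rule (sg c) c := by
  have hval : ∀ n, sg c n = 1 ∨ sg c n = -1 := by
    intro n
    induction n using Nat.strong_induction_on with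
    | _ n ih =>
      rcases n with _ | _ | _ | n
      · right; simp [sg]
      · left; simp [sg]
      · left; simp [sg]
      · have h1 := ih n (by omega)
        have h2 := ih (n + 1) (by omega)
        rw [sg]
        split_ifs
        · rcases h1 with h | h <;> rw [h] <;> decide
        · rcases h1 with h | h <;> rcases h2 with h' | h' <;> rw [h, h'] <;> decide
  exact fun n => ⟨hval n, by rw [sg]⟩

lemma sg_tt (c : ℕ → ℝ) : TT (sg c) 0 := by
  refine ⟨?_, ?_, ?_⟩ <;> simp [sg]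

lemma sg_periodic {c : ℕ → ℝ} {k : ℕ} (hc : ∀ m, c (m + k) = c m) (hT : TT (sg c) k) :
    ∀ m, sg c (m + k) = sg c m := by
  intro m
  obtain ⟨a0, a1, a2⟩ := hT
  induction m using Nat.strong_induction_on with
  | _ m ih =>
    rcases m with _ | _ | _ | m
    · rw [zero_add, a0]; simp [sg]
    · rw [add_comm, zero_add, a1]; simp [sg]
    · have : 0 + 1 + 1 + k = k + 2 := by ring
      rw [this, a2]; simp [sg]
    · have e1 : m + 1 + 1 + 1 + k = (m + k) + 3 := by ring
      have e2 : m + 1 + 1 + 1 = m + 3 := by ring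
      have e3 : m + k + 1 = m + 1 + k := by ring
      rw [e1, e2, sg, sg, hc, e3, ih m (by omega), ih (m + 1) (by omega)]

variable {k : ℕ} [NeZero k]

/-- the condition along closed walks -/
def RunCond (C : ZMod k → ℝ) : Prop :=
  ∀ n j : ℕ, walk (fun m : ℕ => C m) n j = n + k →
    ∃ p : ℝ × ℝ × ℝ, 0 < p.1 ∧ 0 < p.2.1 ∧ 0 < p.2.2 ∧
      (run (fun m : ℕ => C m) n p j).1 < p.1 ∧
      (run (fun m : ℕ => C m) n p j).2.1 < p.2.1 ∧
      (run (fun m : ℕ => C m) n p j).2.2 < p.2.2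

omit [NeZero k] in
lemma lift_eq {α : Type*} {f : ℕ → α} (hf : ∀ m, f (m + k) = f m) (n0 m : ℕ) :
    f ((((n0 + m : ℕ) : ZMod k) - (n0 : ZMod k)).val) = f m := by
  have e1 : (((n0 + m : ℕ) : ZMod k) - (n0 : ZMod k)) = (m : ZMod k) := by push_cast; ring
  rw [e1, ZMod.val_natCast]
  exact (show Function.Periodic f k from hf).map_mod_nat m

omit [NeZero k] in
lemma Q_lt_of_weight {C : ZMod k → ℝ} {ε : ZMod k → ℤ} (hε : IsSignPattern C ε)
    {v : ZMod k → ℝ} (hv : IsWeight C ε v) (n0 m : ℕ) :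
    Q (fun m => ε ((n0 + m : ℕ) : ZMod k)) (fun m => C ((n0 + m : ℕ) : ZMod k)) m
      (v ((n0 + m : ℕ) : ZMod k)) (v ((n0 + (m + 1) : ℕ) : ZMod k)) <
      v ((n0 + (m + 3) : ℕ) : ZMod k) := by
  set i : ZMod k := ((n0 + m : ℕ) : ZMod k) with hi
  have e1 : ((n0 + (m + 1) : ℕ) : ZMod k) = i + 1 := by rw [hi]; push_cast; ring
  have e3 : ((n0 + (m + 3) : ℕ) : ZMod k) = i + 3 := by rw [hi]; push_cast; ring
  unfold Q
  simp only [e1, e3, ← hi]
  split_ifs with h3 h1 h0 h0
  · exact (hv i).2.1 h3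
  all_goals
    have h3' : ε (i + 3) = -1 := (hε (i + 3)).1.resolve_left h3
    have := (hv i).2.2 h3'
    simp only [h1, h0, if_true, if_false] at this
    exact this

lemma runCond_of_weights {C : ZMod k → ℝ} (hC : ∀ i, 0 ≤ C i)
    (h : ∀ ε, IsSignPattern C ε → ∃ v, IsWeight C ε v) : RunCond C := by
  intro n j hj
  have hk : 1 ≤ k := Nat.one_le_iff_ne_zero.mpr (NeZero.ne k)
  set c' : ℕ → ℝ := fun m => C ((n + m : ℕ) : ZMod k) with hc'
  have hcper : ∀ m, c' (m + k) = c' m := by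
    intro m
    simp only [hc']
    congr 1
    push_cast
    rw [ZMod.natCast_self]; ring
  have hwalk : walk c' 0 j = k := by
    have := walk_shift (fun m : ℕ => C m) n j
    rw [hj] at this
    exact (Nat.add_left_cancel this).symm
  have hj0 : 0 < j := by
    rcases Nat.eq_zero_or_pos j with h | h
    · rw [h] at hwalk; simp only [walk] at hwalk; omega
    · exact h
  have hrule := sg_rule c'
  have hTk : TT (sg c') k := by
    have := walk_tt hrule (sg_tt c') j
    rwa [hwalk] at this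
  have hper := sg_periodic hcper hTk
  set ε : ZMod k → ℤ := fun i => sg c' ((i - (n : ZMod k)).val) with hεdef
  have hεm : ∀ m : ℕ, ε ((n + m : ℕ) : ZMod k) = sg c' m := fun m => lift_eq hper n m
  have hrep : ∀ i : ZMod k, ∃ m : ℕ, i = ((n + m : ℕ) : ZMod k) := fun i =>
    ⟨(i - (n : ZMod k)).val, by push_cast; rw [ZMod.natCast_val, ZMod.cast_id]; ring⟩
  have hε : IsSignPattern C ε := by
    intro i
    obtain ⟨m, rfl⟩ := hrep i
    have e1 : ((n + m : ℕ) : ZMod k) + 1 = ((n + (m + 1) : ℕ) : ZMod k) := by push_cast; ring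
    have e3 : ((n + m : ℕ) : ZMod k) + 3 = ((n + (m + 3) : ℕ) : ZMod k) := by push_cast; ring
    rw [e1, e3, hεm, hεm, hεm]
    exact hrule m
  obtain ⟨v, hv⟩ := h ε hε
  set V : ℕ → ℝ := fun m => v ((n + m : ℕ) : ZMod k) with hV
  have hVpos : ∀ m, 0 < V m := fun m => (hv _).1
  have hVQ : ∀ m, Q (sg c') c' m (V m) (V (m + 1)) < V (m + 3) := by
    intro m
    have := Q_lt_of_weight hε hv n m
    unfold Q at this ⊢
    simp only [hεm] at this
    exact this
  obtain ⟨-, -, h3⟩ := run_lt (fun m => hC _) hrule (sg_tt c') hVpos hVQ j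
  have h3 := h3 hj0
  rw [hwalk] at h3
  have hVper : ∀ m, V (k + m) = V m := by
    intro m
    simp only [hV]
    congr 1
    push_cast
    rw [ZMod.natCast_self]; ring
  refine ⟨(V 0, V 1, V 2), hVpos 0, hVpos 1, hVpos 2, ?_⟩
  rw [run_shift]
  rw [hVper 1, hVper 2] at h3
  have h0 : V k = V 0 := hVper 0
  rw [h0] at h3
  exact h3

/-- iterates with slack `t` -/
noncomputable def Vs (e : ℕ → ℤ) (c : ℕ → ℝ) (p : ℝ × ℝ × ℝ) (t : ℝ) : ℕ → ℝ
  | 0 => p.1
  | 1 => p.2.1
  | 2 => p.2.2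
  | (m + 3) => t * Q e c m (Vs e c p t m) (Vs e c p t (m + 1))

lemma Vs_succ (e : ℕ → ℤ) (c : ℕ → ℝ) (p : ℝ × ℝ × ℝ) (t : ℝ) (m : ℕ) :
    Vs e c p t (m + 3) = t * Q e c m (Vs e c p t m) (Vs e c p t (m + 1)) := by rw [Vs]

lemma Vs_pos {e : ℕ → ℤ} {c : ℕ → ℝ} (hc : ∀ n, 0 ≤ c n) (h : Rule e c) {p : ℝ × ℝ × ℝ}
    (h1 : 0 < p.1) (h2 : 0 < p.2.1) (h3 : 0 < p.2.2) {t : ℝ} (ht : 0 < t) :
    ∀ m, 0 < Vs e c p t m := by
  intro m
  induction m using Nat.strong_induction_on with
  | _ m ih =>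
    rcases m with _ | _ | _ | m
    · exact h1
    · exact h2
    · exact h3
    · rw [Vs_succ]
      exact mul_pos ht (Q_pos hc h (ih m (by omega)) (ih (m + 1) (by omega)))

lemma Vs_cont {e : ℕ → ℤ} {c : ℕ → ℝ} (hc : ∀ n, 0 ≤ c n) (h : Rule e c) {p : ℝ × ℝ × ℝ}
    (h1 : 0 < p.1) (h2 : 0 < p.2.1) (h3 : 0 < p.2.2) :
    ∀ m, ContinuousAt (fun t => Vs e c p t m) 1 := by
  intro m
  induction m using Nat.strong_induction_on with
  | _ m ih =>
    rcases m with _ | _ | _ | m
    · exact continuousAt_const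
    · exact continuousAt_const
    · exact continuousAt_const
    · have c1 := ih m (by omega)
      have c2 := ih (m + 1) (by omega)
      have p1 := Vs_pos hc h h1 h2 h3 one_pos m
      have p2 := Vs_pos hc h h1 h2 h3 one_pos (m + 1)
      have hcm := hc m
      show ContinuousAt (fun t => t * Q e c m (Vs e c p t m) (Vs e c p t (m + 1))) 1
      refine continuousAt_id.mul ?_
      unfold Q
      split_ifs with g3 g1 g0 g0
      · refine continuousAt_const.div ((continuousAt_const.div c2 p2.ne').add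
          (continuousAt_const.div c1 p1.ne')) ?_
        positivity
      · exact (continuousAt_const.mul c2).add c1
      · exact (continuousAt_const.mul c2).add continuousAt_const
      · exact continuousAt_const.add c1
      · exact continuousAt_const

/-- without slack the iterates along the walk are the run -/
lemma Vs_one_eq_run {e : ℕ → ℤ} {c : ℕ → ℝ} (h : Rule e c) (h0 : TT e 0) (p : ℝ × ℝ × ℝ)
    (j : ℕ) :
    run c 0 p j = (Vs e c p 1 (walk c 0 j), Vs e c p 1 (walk c 0 j + 1),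
      Vs e c p 1 (walk c 0 j + 2)) := by
  induction j with
  | zero => simp [run, walk, Vs]
  | succ j ih =>
    have hTT := walk_tt h h0 j
    set t := walk c 0 j with ht
    have hrun : run c 0 p (j + 1) = blk c t (run c 0 p j) := rfl
    have hwalk : walk c 0 (j + 1) = t + if c t = 0 then 6 else 5 := rfl
    rw [hrun, hwalk, ih]
    have hq3 := Vs_succ e c p 1 t
    have hq4 := Vs_succ e c p 1 (t + 1)
    have hq5 := Vs_succ e c p 1 (t + 2)
    have hq6 := Vs_succ e c p 1 (t + 3)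
    have hq7 := Vs_succ e c p 1 (t + 4)
    have hq8 := Vs_succ e c p 1 (t + 5)
    simp only [Q, add_assoc, one_mul] at hq3 hq4 hq5 hq6 hq7 hq8
    norm_num at hq3 hq4 hq5 hq6 hq7 hq8
    by_cases hct : c t = 0
    · obtain ⟨s6, -, -, -, -, -⟩ := tt_next_six h hTT hct
      obtain ⟨e0, e1, e2⟩ := hTT
      have e3 : e (t + 3) = 1 := by rw [rule3 h e0 e1, if_pos hct]
      have e4 : e (t + 4) = -1 := rule1 h e1
      have e5 : e (t + 5) = -1 := rule1 h e2
      obtain ⟨e6, e7, e8⟩ := s6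
      have e7 : e (t + 7) = 1 := e7
      have e8 : e (t + 8) = 1 := e8
      simp only [e0, e1, e2, e3, e4, e5, e6, e7, e8, hct] at hq3 hq4 hq5 hq6 hq7 hq8
      norm_num at hq3 hq4 hq5 hq6 hq7 hq8
      unfold blk
      rw [if_pos hct, if_pos hct]
      simp only [Prod.mk.injEq]
      refine ⟨?_, ?_, ?_⟩
      · rw [hq6, hq3]
      · show _ = Vs e c p 1 (t + 7)
        rw [hq7, hq5, hq4, hq3]; simp [one_div]
      · show _ = Vs e c p 1 (t + 8)
        rw [hq8, hq6, hq5, hq3]; simp [one_div]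
    · obtain ⟨s5, -, -, -, -, -, -⟩ := tt_next_five h hTT hct
      obtain ⟨e0, e1, e2⟩ := hTT
      have e3 : e (t + 3) = -1 := by rw [rule3 h e0 e1, if_neg hct]
      have e4 : e (t + 4) = -1 := rule1 h e1
      obtain ⟨e5, e6, e7⟩ := s5
      have e6 : e (t + 6) = 1 := e6
      have e7 : e (t + 7) = 1 := e7
      simp only [e0, e1, e2, e3, e4, e5, e6, e7] at hq3 hq4 hq5 hq6 hq7
      norm_num at hq3 hq4 hq5 hq6 hq7
      unfold blk
      rw [if_neg hct, if_neg hct]
      simp only [Prod.mk.injEq]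
      refine ⟨?_, ?_, ?_⟩
      · rw [hq5]
      · show _ = Vs e c p 1 (t + 6)
        rw [hq6, hq4, hq3]; simp [one_div]
      · show _ = Vs e c p 1 (t + 7)
        rw [hq7, hq5, hq4]; simp [one_div]

lemma isWeight_of_Q {C : ZMod k → ℝ} {ε : ZMod k → ℤ} (n0 : ℕ) {v : ZMod k → ℝ}
    (hv : ∀ i, 0 < v i)
    (hQ : ∀ m < k, Q (fun m => ε ((n0 + m : ℕ) : ZMod k)) (fun m => C ((n0 + m : ℕ) : ZMod k)) m
      (v ((n0 + m : ℕ) : ZMod k)) (v ((n0 + (m + 1) : ℕ) : ZMod k)) <
      v ((n0 + (m + 3) : ℕ) : ZMod k)) : IsWeight C ε v := by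
  intro i
  set m := (i - (n0 : ZMod k)).val with hm
  have hi : i = ((n0 + m : ℕ) : ZMod k) := by
    push_cast
    rw [hm, ZMod.natCast_val, ZMod.cast_id]; ring
  have e1 : ((n0 + (m + 1) : ℕ) : ZMod k) = i + 1 := by rw [hi]; push_cast; ring
  have e3 : ((n0 + (m + 3) : ℕ) : ZMod k) = i + 3 := by rw [hi]; push_cast; ring
  have h := hQ m (ZMod.val_lt _)
  unfold Q at h
  simp only [e1, e3, ← hi] at h
  refine ⟨hv i, fun h3 => ?_, fun h3 => ?_⟩
  · rw [if_pos h3] at h; exact h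
  · rw [if_neg (by rw [h3]; norm_num)] at h; exact h

open Filter Topology in
lemma weight_of_run {C : ZMod k → ℝ} (hC : ∀ i, 0 ≤ C i) {ε : ZMod k → ℤ}
    (hε : IsSignPattern C ε) {n0 : ℕ} (hT : TT (fun n : ℕ => ε n) n0) {j : ℕ}
    (hj : walk (fun m : ℕ => C m) n0 j = n0 + k) {p : ℝ × ℝ × ℝ} (h1 : 0 < p.1) (h2 : 0 < p.2.1)
    (h3 : 0 < p.2.2) (r1 : (run (fun m : ℕ => C m) n0 p j).1 < p.1)
    (r2 : (run (fun m : ℕ => C m) n0 p j).2.1 < p.2.1)
    (r3 : (run (fun m : ℕ => C m) n0 p j).2.2 < p.2.2) : ∃ v, IsWeight C ε v := by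
  have hk : 1 ≤ k := Nat.one_le_iff_ne_zero.mpr (NeZero.ne k)
  set c' : ℕ → ℝ := fun m => C ((n0 + m : ℕ) : ZMod k) with hc'
  set e : ℕ → ℤ := fun m => ε ((n0 + m : ℕ) : ZMod k) with he
  have hrule : Rule e c' := by
    intro m
    have := (rule_of_pattern hε) (n0 + m)
    simp only [he, hc', ← add_assoc]
    exact this
  have hTT : TT e 0 := by
    obtain ⟨a0, a1, a2⟩ := hT
    exact ⟨a0, a1, a2⟩
  have hc0 : ∀ m, 0 ≤ c' m := fun m => hC _
  have hwalk : walk c' 0 j = k := by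
    have := walk_shift (fun m : ℕ => C m) n0 j
    rw [hj] at this
    exact (Nat.add_left_cancel this).symm
  have hk5 : 5 ≤ k := by
    rcases Nat.eq_zero_or_pos j with h | h
    · rw [h] at hwalk; simp only [walk] at hwalk; omega
    · obtain ⟨j', rfl⟩ := Nat.exists_eq_succ_of_ne_zero h.ne'
      have : walk c' 0 (j' + 1) = walk c' 0 j' + if c' (walk c' 0 j') = 0 then 6 else 5 := rfl
      rw [Nat.succ_eq_add_one, this] at hwalk
      split_ifs at hwalk <;> omega
  -- choose the slack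
  have hcont := Vs_cont hc0 hrule h1 h2 h3
  have hrun := Vs_one_eq_run hrule hTT p j
  rw [hwalk] at hrun
  rw [run_shift] at r1 r2 r3
  rw [hrun] at r1 r2 r3
  simp only at r1 r2 r3
  obtain ⟨t, ht, ht1, ht2, ht3⟩ : ∃ t : ℝ, 1 < t ∧ Vs e c' p t k < p.1 ∧
      Vs e c' p t (k + 1) < p.2.1 ∧ Vs e c' p t (k + 2) < p.2.2 := by
    have d1 : ∀ᶠ t in 𝓝 (1 : ℝ), Vs e c' p t k < p.1 := (hcont k).eventually_lt_const r1
    have d2 : ∀ᶠ t in 𝓝 (1 : ℝ), Vs e c' p t (k + 1) < p.2.1 :=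
      (hcont (k + 1)).eventually_lt_const r2
    have d3 : ∀ᶠ t in 𝓝 (1 : ℝ), Vs e c' p t (k + 2) < p.2.2 :=
      (hcont (k + 2)).eventually_lt_const r3
    have hev : ∀ᶠ t in 𝓝[>] (1 : ℝ), Vs e c' p t k < p.1 ∧
        Vs e c' p t (k + 1) < p.2.1 ∧ Vs e c' p t (k + 2) < p.2.2 := by
      filter_upwards [nhdsWithin_le_nhds d1, nhdsWithin_le_nhds d2, nhdsWithin_le_nhds d3] with
        t h1 h2 h3
      exact ⟨h1, h2, h3⟩
    obtain ⟨t, g1, g2⟩ := (hev.and self_mem_nhdsWithin).exists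
    exact ⟨t, g2, g1⟩
  have ht0 : 0 < t := by linarith
  set V : ℕ → ℝ := Vs e c' p t with hV
  have hVpos : ∀ m, 0 < V m := Vs_pos hc0 hrule h1 h2 h3 ht0
  have hV0 : V 0 = p.1 := rfl
  have hV1 : V 1 = p.2.1 := rfl
  have hV2 : V 2 = p.2.2 := rfl
  have hVs : ∀ m, V (m + 3) = t * Q e c' m (V m) (V (m + 1)) := fun m => Vs_succ e c' p t m
  have hlt : ∀ m, Q e c' m (V m) (V (m + 1)) < V (m + 3) := by
    intro m
    rw [hVs]
    have := Q_pos hc0 hrule (m := m) (hVpos m) (hVpos (m + 1))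
    nlinarith
  -- the weights
  set W : ℕ → ℝ := fun m => if m = 0 then V k else V m with hW
  have hWpos : ∀ m, 0 < W m := by
    intro m; simp only [hW]; split_ifs
    · exact hVpos k
    · exact hVpos m
  set v : ZMod k → ℝ := fun i => W ((i - (n0 : ZMod k)).val) with hv
  have hvm : ∀ m : ℕ, v ((n0 + m : ℕ) : ZMod k) = W (m % k) := by
    intro m
    simp only [hv]
    have e1 : (((n0 + m : ℕ) : ZMod k) - (n0 : ZMod k)) = (m : ZMod k) := by push_cast; ring
    rw [e1, ZMod.val_natCast]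
  refine ⟨v, isWeight_of_Q n0 (fun i => hWpos _) fun m hm => ?_⟩
  rw [hvm, hvm, hvm, Nat.mod_eq_of_lt hm]
  show Q e c' m (W m) (W ((m + 1) % k)) < W ((m + 3) % k)
  have hWm : ∀ m, m ≠ 0 → W m = V m := fun m h => by simp only [hW, if_neg h]
  have hW0 : W 0 = V k := by simp [hW]
  rcases Nat.eq_zero_or_pos m with h0 | h0
  · subst h0
    have a1 : (0 + 1) % k = 1 := Nat.mod_eq_of_lt (by omega)
    have a3 : (0 + 3) % k = 3 := Nat.mod_eq_of_lt (by omega)
    rw [a1, a3, hW0, hWm 1 (by norm_num), hWm 3 (by norm_num)]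
    exact lt_of_le_of_lt (Q_mono hc0 (hVpos k) (hVpos 1) (by rw [hV0]; exact ht1.le) le_rfl)
      (hlt 0)
  · have hcase : m + 3 < k ∨ m + 3 = k ∨ m + 2 = k ∨ m + 1 = k := by omega
    rcases hcase with h | h | h | h
    · have a1 : (m + 1) % k = m + 1 := Nat.mod_eq_of_lt (by omega)
      have a3 : (m + 3) % k = m + 3 := Nat.mod_eq_of_lt h
      rw [a1, a3, hWm m h0.ne', hWm _ (by omega), hWm _ (by omega)]
      exact hlt m
    · have a1 : (m + 1) % k = m + 1 := Nat.mod_eq_of_lt (by omega)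
      have a3 : (m + 3) % k = 0 := by rw [h]; exact Nat.mod_self k
      rw [a1, a3, hWm m h0.ne', hWm _ (by omega), hW0]
      have := hlt m
      rwa [h] at this
    · have a1 : (m + 1) % k = m + 1 := Nat.mod_eq_of_lt (by omega)
      have a3 : (m + 3) % k = 1 := by
        have : m + 3 = 1 + k := by omega
        rw [this, Nat.add_mod_right]; exact Nat.mod_eq_of_lt (by omega)
      rw [a1, a3, hWm m h0.ne', hWm _ (by omega), hWm 1 (by norm_num), hV1]
      have := hlt m
      have e1 : m + 3 = k + 1 := by omega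
      rw [e1] at this
      linarith
    · have a1 : (m + 1) % k = 0 := by rw [h]; exact Nat.mod_self k
      have a3 : (m + 3) % k = 2 := by
        have : m + 3 = 2 + k := by omega
        rw [this, Nat.add_mod_right]; exact Nat.mod_eq_of_lt (by omega)
      rw [a1, a3, hWm m h0.ne', hW0, hWm 2 (by norm_num), hV2]
      have := hlt m
      have e1 : m + 3 = k + 2 := by omega
      rw [e1, h] at this
      linarith

/-- The criterion in walk form. -/
theorem allBounded_iff_run {C : ZMod k → ℝ} (hC : ∀ i, 0 ≤ C i) :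
    AllBounded C ↔ Six C ∧ (¬ NoClass3 C ∨ RunCond C) := by
  rw [allBounded_iff hC]
  constructor
  · rintro ⟨h6, h | h⟩
    · exact ⟨h6, Or.inl h⟩
    · exact ⟨h6, Or.inr (runCond_of_weights hC h)⟩
  · rintro ⟨h6, h | h⟩
    · exact ⟨h6, Or.inl h⟩
    · by_cases h3 : NoClass3 C
      · refine ⟨h6, Or.inr fun ε hε => ?_⟩
        have hrule := rule_of_pattern hε
        rcases exists_tt_or hrule with ⟨n0, hn0⟩ | ⟨n, hn⟩
        · obtain ⟨j, hj⟩ := walk_surj hrule hn0 (by omega) (tt_add_k hn0)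
          obtain ⟨p, p1, p2, p3, r1, r2, r3⟩ := h n0 j hj
          exact weight_of_run hC hε hn0 hj p1 p2 p3 r1 r2 r3
        · exfalso
          have hno : ¬ ∀ j : ℕ, C ((n : ZMod k) + 6 * j) = 0 := by
            intro hn
            obtain ⟨j, hj⟩ := h3 (n : ZMod k)
            apply hj
            rcases Nat.even_or_odd' j with ⟨q, hq | hq⟩
            · rw [← hn q]; congr 1; rw [hq]; push_cast; ring
            · rw [← h6 _ hn q]; congr 1; rw [hq]; push_cast; ring
          apply hno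
          intro j
          have := hn (3 * j)
          rw [← this]
          show C ((n : ZMod k) + 6 * (j : ZMod k)) = C ((n + 2 * (3 * j) : ℕ) : ZMod k)
          congr 1
          push_cast; ring
      · exact ⟨h6, Or.inl h3⟩

end Pool.Agent.H33.Rec
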